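import Pool.Agent.V11222.Kik.Chi

/-!
The ratio of the expectations tends to one below the threshold `μ = 1`, for order 2.
-/

set_option autoImplicit false

open Matrix MeasureTheory ProbabilityTheory Filter Topology

namespace Pool.Agent.V11222.Kik

/-- the difference of expectations is `o(√n)` -/
theorem diff_small (l : ℕ) {μ : ℝ} (h0 : 0 ≤ μ) (h1 : μ < 1) {ε : ℝ} (hε : 0 < ε) :
    ∀ᶠ n : ℕ in atTop, ∀ c : ℝ, c ^ 2 = μ ^ 2 / n →
      |∫ z, f n l (z + sh n c) ∂(P n) - ∫ z, f n l z ∂(P n)| ≤ ε * Real.sqrt n := by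
  set C : ℝ := (1 + μ ^ 2) / (2 * (1 - μ ^ 2)) with hC
  have hμ2 : μ ^ 2 < 1 := by nlinarith
  set ρ : ℝ := ε / Real.exp C with hρ
  have hρ0 : 0 < ρ := div_pos hε (Real.exp_pos _)
  set E : ℝ := 4 * Real.exp l with hE
  have hE0 : 0 < E := by positivity
  set τ : ℝ := ε * ρ / (2 * E) with hτ
  have hτ0 : 0 < τ := by positivity
  set D : ℝ := E * K6 / (τ ^ 2 * ρ) with hD
  have hD0 : 0 ≤ D := by
    have := K6_nonneg
    positivity
  filter_upwards [eventually_ge_atTop (max l 1), (tendsto_natCast_atTop_atTop (R := ℝ)).eventually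
    (eventually_ge_atTop (2 * D / ε))] with n hn hnD c hc
  have hln : l ≤ n := (le_max_left _ _).trans hn
  have hn1 : (1 : ℝ) ≤ n := by exact_mod_cast (le_max_right _ _).trans hn
  have hn0 : (0 : ℝ) < n := by linarith
  have hs0 : 0 < Real.sqrt n := Real.sqrt_pos.2 hn0
  have hss : Real.sqrt n * Real.sqrt n = n := Real.mul_self_sqrt hn0.le
  have hm : (n : ℝ) < 2 * n / (1 + μ ^ 2) := by
    rw [lt_div_iff₀ (by positivity)]
    nlinarith
  have hcm : c ^ 2 ≤ 1 / (2 * n / (1 + μ ^ 2)) := by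
    rw [hc, one_div_div, div_le_div_iff₀ hn0 (by positivity)]
    nlinarith
  have hV := var_le (n := n) hln (t := τ * n) (by positivity)
  have hr : 0 < ρ * Real.sqrt n := by positivity
  have key := compare (n := n) hln hm hcm hV hr
  refine key.trans ?_
  have eC : (n : ℝ) / (2 * (2 * n / (1 + μ ^ 2) - n)) = C := by
    have h3 : (0 : ℝ) < 1 - μ ^ 2 := by linarith
    have h4 : 2 * (n : ℝ) / (1 + μ ^ 2) - n = n * (1 - μ ^ 2) / (1 + μ ^ 2) := by
      field_simp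
      ring
    rw [h4, hC]
    field_simp
  rw [eC]
  have e1 : ρ * Real.sqrt n * Real.exp C = ε * Real.sqrt n := by
    rw [hρ]
    field_simp
  have e2 : E * (τ * n + n ^ 2 * (K6 / (τ * n) ^ 2)) / (ρ * Real.sqrt n) =
      ε / 2 * Real.sqrt n + D / Real.sqrt n := by
    have h5 : E * τ = ε / 2 * ρ := by
      rw [hτ]
      field_simp
    have h6 : (n : ℝ) ^ 2 * (K6 / (τ * n) ^ 2) = K6 / τ ^ 2 := by
      field_simp
    rw [h6, hD]
    have h7 : E * (τ * n + K6 / τ ^ 2) = ε / 2 * ρ * (Real.sqrt n * Real.sqrt n) +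
        E * K6 / τ ^ 2 := by
      rw [hss, ← h5]
      ring
    rw [h7]
    field_simp
  have e3 : D / Real.sqrt n ≤ ε / 2 * Real.sqrt n := by
    rw [div_le_iff₀ hs0, mul_assoc, hss]
    have : 2 * D / ε ≤ n := hnD
    rw [div_le_iff₀ hε] at this
    linarith
  rw [e1, e2]
  linarith

theorem low_half {l : ℕ} (hl : 1 ≤ l) :
    ∀ᶠ n : ℕ in atTop, κ / 2 * Real.sqrt n ≤ ∫ z, f n l z ∂(P n) := by
  filter_upwards [eventually_ge_atTop (2 * l)] with n hn
  have h1 := low (n := n) hl (by omega)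
  refine le_trans ?_ h1
  have h2 : Real.sqrt n / 2 ≤ Real.sqrt ((n : ℝ) - l) := by
    apply Real.le_sqrt_of_sq_le
    rw [div_pow, Real.sq_sqrt (Nat.cast_nonneg n)]
    have : (2 : ℝ) * l ≤ n := by exact_mod_cast hn
    have hn0 : (0 : ℝ) ≤ n := Nat.cast_nonneg n
    linarith
  have := mul_le_mul_of_nonneg_right h2 κ_pos.le
  linarith

/-- below `μ = 1` the ratio tends to `1` -/
theorem ratio_lim {l : ℕ} (hl : 1 ≤ l) {μ : ℝ} (h0 : 0 ≤ μ) (h1 : μ < 1) (c : ℕ → ℝ)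
    (hc : ∀ n, c n ^ 2 = μ ^ 2 / n) :
    Tendsto (fun n : ℕ => (∫ z, f n l (z + sh n (c n)) ∂(P n)) / (∫ z, f n l z ∂(P n)))
      atTop (𝓝 1) := by
  rw [Metric.tendsto_atTop']
  intro ε hε
  have hκ := κ_pos
  have h2 := diff_small l h0 h1 (ε := ε * κ / 4) (by positivity)
  have h3 := low_half hl
  obtain ⟨N, hN⟩ := (h2.and (h3.and (eventually_ge_atTop 1))).exists_forall_of_atTop
  refine ⟨N, fun n hn => ?_⟩
  obtain ⟨h4, h5, h6⟩ := hN n hn.le
  have h7 := h4 (c n) (hc n)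
  have hn0 : (0 : ℝ) < n := by exact_mod_cast h6
  have hs0 : 0 < Real.sqrt n := Real.sqrt_pos.2 hn0
  have hpos : 0 < ∫ z, f n l z ∂(P n) := lt_of_lt_of_le (by positivity) h5
  rw [Real.dist_eq]
  have e1 : (∫ z, f n l (z + sh n (c n)) ∂(P n)) / (∫ z, f n l z ∂(P n)) - 1 =
      (∫ z, f n l (z + sh n (c n)) ∂(P n) - ∫ z, f n l z ∂(P n)) / (∫ z, f n l z ∂(P n)) := by
    field_simp
  rw [e1, abs_div, abs_of_pos hpos, div_lt_iff₀ hpos]
  calc |∫ z, f n l (z + sh n (c n)) ∂(P n) - ∫ z, f n l z ∂(P n)| ≤ ε * κ / 4 * Real.sqrt n := h7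
    _ = (ε / 2) * (κ / 2 * Real.sqrt n) := by ring
    _ ≤ (ε / 2) * ∫ z, f n l z ∂(P n) := mul_le_mul_of_nonneg_left h5 (by positivity)
    _ < ε * ∫ z, f n l z ∂(P n) := mul_lt_mul_of_pos_right (by linarith) hpos

end Pool.Agent.V11222.Kik
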