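import Mathlib

/-!
Translation of a product of standard Gaussian measures.
-/

set_option autoImplicit false

open MeasureTheory ProbabilityTheory
open scoped ENNReal BigOperators

namespace Pool.Agent.V11222.Kik

theorem lint_fin {n : ℕ} (μ : Fin n → Measure ℝ)
    [∀ i, SigmaFinite (μ i)] (f : Fin n → ℝ → ℝ≥0∞) (hf : ∀ i, Measurable (f i)) :
    ∫⁻ x : Fin n → ℝ, ∏ i, f i (x i) ∂(Measure.pi μ) = ∏ i, ∫⁻ x, f i x ∂(μ i) := by
  induction n with
  | zero => simp
  | succ n n_ih =>
      calc
        _ = ∫⁻ x : ℝ × (Fin n → ℝ),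
            f 0 x.1 * ∏ i : Fin n, f (Fin.succ i) (x.2 i)
            ∂((μ 0).prod (Measure.pi (fun i ↦ μ i.succ))) := by
          rw [← ((measurePreserving_piFinSuccAbove μ 0).symm).lintegral_comp_emb
            (MeasurableEquiv.measurableEmbedding _)]
          simp_rw [MeasurableEquiv.piFinSuccAbove_symm_apply, Fin.insertNthEquiv,
            Fin.prod_univ_succ, Fin.insertNth_zero, Equiv.coe_fn_mk, Fin.cons_succ,
            Fin.zero_succAbove, cast_eq, Fin.cons_zero]
        _ = (∫⁻ x, f 0 x ∂μ 0)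
            * ∏ i : Fin n, ∫⁻ (x : ℝ), f (Fin.succ i) x ∂(μ i.succ) := by
          rw [← n_ih (fun i => μ i.succ) (fun i => f i.succ) (fun i => hf _)]
          exact lintegral_prod_mul (hf 0).aemeasurable (Finset.measurable_prod _ (fun i _ =>
            (hf _).comp (measurable_pi_apply i))).aemeasurable
        _ = ∏ i, ∫⁻ x, f i x ∂(μ i) := by rw [Fin.prod_univ_succ]

theorem lint_fintype {ι : Type*} [Fintype ι] (μ : ι → Measure ℝ)
    [∀ i, SigmaFinite (μ i)] (f : ι → ℝ → ℝ≥0∞) (hf : ∀ i, Measurable (f i)) :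
    ∫⁻ x : ι → ℝ, ∏ i, f i (x i) ∂(Measure.pi μ) = ∏ i, ∫⁻ x, f i x ∂(μ i) := by
  let e := (Fintype.equivFin ι).symm
  rw [← (measurePreserving_piCongrLeft _ e).lintegral_comp_emb
    (MeasurableEquiv.measurableEmbedding _)]
  simp_rw [← e.prod_comp, MeasurableEquiv.coe_piCongrLeft, Equiv.piCongrLeft_apply_apply]
  exact lint_fin (fun i => μ (e i)) (fun i => f (e i)) (fun i => hf _)

theorem pi_dens {ι : Type*} [Fintype ι] (μ : ι → Measure ℝ) [∀ i, SigmaFinite (μ i)]
    (g : ι → ℝ → ℝ≥0∞) (hg : ∀ i, Measurable (g i))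
    [∀ i, SigmaFinite ((μ i).withDensity (g i))] :
    Measure.pi (fun i => (μ i).withDensity (g i)) =
      (Measure.pi μ).withDensity (fun y => ∏ i, g i (y i)) := by
  apply Measure.pi_eq
  intro s hs
  rw [withDensity_apply _ (MeasurableSet.univ_pi hs), Measure.restrict_pi_pi,
    lint_fintype _ _ hg]
  apply Finset.prod_congr rfl
  intro i _
  rw [withDensity_apply _ (hs i)]

/-- the standard Gaussian measure -/
noncomputable abbrev γ : Measure ℝ := gaussianReal 0 1

/-- one-dimensional Cameron-Martin density -/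
noncomputable def cm1 (a z : ℝ) : ℝ := Real.exp (a * z - a ^ 2 / 2)

theorem gauss_shift1 (a : ℝ) :
    gaussianReal a 1 = γ.withDensity (fun z => ENNReal.ofReal (cm1 a z)) := by
  have hm : Measurable fun z => ENNReal.ofReal (cm1 a z) := by
    unfold cm1
    fun_prop
  unfold γ
  rw [gaussianReal_of_var_ne_zero a one_ne_zero, gaussianReal_of_var_ne_zero 0 one_ne_zero,
    ← withDensity_mul _ (measurable_gaussianPDF _ _) hm]
  congr 1
  funext z
  simp only [Pi.mul_apply, gaussianPDF_def, gaussianPDFReal_def]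
  rw [← ENNReal.ofReal_mul (by positivity)]
  congr 1
  unfold cm1
  rw [mul_assoc ((√(2 * Real.pi * ((1 : NNReal) : ℝ)))⁻¹), ← Real.exp_add]
  congr 2
  simp only [NNReal.coe_one]
  ring

section
variable {ι : Type} [Fintype ι]

/-- the Cameron-Martin density -/
noncomputable def cm (a z : ι → ℝ) : ℝ := Real.exp (∑ i, a i * z i - (∑ i, a i ^ 2) / 2)

theorem cm_meas (a : ι → ℝ) : Measurable (cm a) := by
  unfold cm
  fun_prop

theorem cm_pos (a z : ι → ℝ) : 0 < cm a z := Real.exp_pos _

theorem pi_shift (a : ι → ℝ) :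
    (Measure.pi fun _ : ι => γ).map (fun z => z + a) =
      (Measure.pi fun _ : ι => γ).withDensity (fun z => ENNReal.ofReal (cm a z)) := by
  have h1 : (Measure.pi fun _ : ι => γ).map (fun z => z + a) =
      Measure.pi (fun i => gaussianReal (a i) 1) := by
    have := measurePreserving_pi (fun _ : ι => γ) (fun i : ι => gaussianReal (a i) 1)
      (f := fun i z => z + a i) (fun i => by
        refine ⟨by fun_prop, ?_⟩
        rw [gaussianReal_map_add_const, zero_add])
    rw [← this.map_eq]
    rfl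
  rw [h1]
  have h2 : (fun i => gaussianReal (a i) 1) =
      fun i => γ.withDensity (fun z => ENNReal.ofReal (cm1 (a i) z)) := by
    funext i
    exact gauss_shift1 (a i)
  rw [h2]
  have : ∀ i, SigmaFinite (γ.withDensity (fun z => ENNReal.ofReal (cm1 (a i) z))) := by
    intro i
    rw [← gauss_shift1]
    infer_instance
  rw [pi_dens (fun _ : ι => γ) (fun i z => ENNReal.ofReal (cm1 (a i) z)) (fun i => by
    unfold cm1
    fun_prop)]
  congr 1
  funext z
  rw [← ENNReal.ofReal_prod_of_nonneg (f := fun i => cm1 (a i) (z i))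
    (fun i _ => (Real.exp_pos _).le)]
  congr 1
  unfold cm1 cm
  rw [← Real.exp_sum]
  congr 1
  rw [Finset.sum_sub_distrib, Finset.sum_div]

/-- Cameron-Martin formula -/
theorem int_shift (a : ι → ℝ) (g : (ι → ℝ) → ℝ) (hg : Measurable g) :
    ∫ z, g (z + a) ∂(Measure.pi fun _ : ι => γ) =
      ∫ z, cm a z * g z ∂(Measure.pi fun _ : ι => γ) := by
  have h1 : ∫ z, g (z + a) ∂(Measure.pi fun _ : ι => γ) =
      ∫ z, g z ∂((Measure.pi fun _ : ι => γ).map (fun z => z + a)) := by
    rw [integral_map (by fun_prop) hg.aestronglyMeasurable]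
  rw [h1, pi_shift, integral_withDensity_eq_integral_toReal_smul
    ((cm_meas a).ennreal_ofReal) (Filter.Eventually.of_forall fun z => ENNReal.ofReal_lt_top)]
  congr 1
  funext z
  rw [ENNReal.toReal_ofReal (cm_pos a z).le, smul_eq_mul]

theorem cm_integrable (a : ι → ℝ) : Integrable (cm a) (Measure.pi fun _ : ι => γ) := by
  have h : cm a = fun z => ∏ i, Real.exp (a i * z i) * Real.exp (-(a i ^ 2) / 2) := by
    funext z
    unfold cm
    simp_rw [← Real.exp_add]
    rw [← Real.exp_sum]
    congr 1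
    rw [Finset.sum_add_distrib, sub_eq_add_neg, ← Finset.sum_div, Finset.sum_neg_distrib, neg_div]
  rw [h]
  exact Integrable.fintype_prod (f := fun i z => Real.exp (a i * z) * Real.exp (-(a i ^ 2) / 2))
    fun i => (integrable_exp_mul_gaussianReal (a i)).mul_const _

theorem cm_mul (a b z : ι → ℝ) : cm a z * cm b z = Real.exp (∑ i, a i * b i) * cm (a + b) z := by
  unfold cm
  rw [← Real.exp_add, ← Real.exp_add]
  congr 1
  have : ∑ i, (a + b) i ^ 2 = ∑ i, a i ^ 2 + 2 * ∑ i, a i * b i + ∑ i, b i ^ 2 := by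
    rw [Finset.mul_sum, ← Finset.sum_add_distrib, ← Finset.sum_add_distrib]
    refine Finset.sum_congr rfl fun i _ => ?_
    simp only [Pi.add_apply]
    ring
  rw [this]
  have h2 : ∑ i, (a + b) i * z i = ∑ i, a i * z i + ∑ i, b i * z i := by
    rw [← Finset.sum_add_distrib]
    refine Finset.sum_congr rfl fun i _ => ?_
    simp only [Pi.add_apply]
    ring
  rw [h2]
  ring

theorem cm_int_one (a : ι → ℝ) : ∫ z, cm a z ∂(Measure.pi fun _ : ι => γ) = 1 := by
  have := int_shift a (fun _ => 1) measurable_const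
  simp only [integral_const, probReal_univ, smul_eq_mul, mul_one] at this
  exact this.symm

theorem cm_mul_int (a b : ι → ℝ) :
    ∫ z, cm a z * cm b z ∂(Measure.pi fun _ : ι => γ) = Real.exp (∑ i, a i * b i) := by
  simp_rw [cm_mul]
  rw [integral_const_mul, cm_int_one, mul_one]

theorem cm_mul_integrable (a b : ι → ℝ) :
    Integrable (fun z => cm a z * cm b z) (Measure.pi fun _ : ι => γ) := by
  simp_rw [cm_mul]
  exact (cm_integrable _).const_mul _

end

end Pool.Agent.V11222.Kik
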