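import Pool.Agent.V11222.Kik.Low

/-!
Gauge symmetry and the second moment of the averaged Cameron-Martin density.
-/

set_option autoImplicit false

open Matrix MeasureTheory ProbabilityTheory
open scoped NNReal

namespace Pool.Agent.V11222.Kik

section
variable {n l : ℕ}

/-- real value of a sign -/
def rs (u : ℤˣ) : ℝ := ((u : ℤ) : ℝ)

theorem rs_mul (u v : ℤˣ) : rs (u * v) = rs u * rs v := by simp [rs]

theorem rs_sq (u : ℤˣ) : rs u * rs u = 1 := by
  rcases Int.units_eq_one_or u with h | h <;> simp [rs, h]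

/-- characters -/
def χ (x : Fin n → ℤˣ) (S : Finset (Fin n)) : ℝ := ∏ i ∈ S, rs (x i)

theorem chi_mul (x y : Fin n → ℤˣ) (S : Finset (Fin n)) : χ (x * y) S = χ x S * χ y S := by
  unfold χ
  rw [← Finset.prod_mul_distrib]
  refine Finset.prod_congr rfl fun i _ => ?_
  rw [Pi.mul_apply, rs_mul]

theorem chi_sq (x : Fin n → ℤˣ) (S : Finset (Fin n)) : χ x S * χ x S = 1 := by
  unfold χ
  rw [← Finset.prod_mul_distrib]
  exact Finset.prod_eq_one fun i _ => rs_sq _

theorem chi_symm (x : Fin n → ℤˣ) (I J : Finset (Fin n)) :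
    χ x (symmDiff I J) = χ x I * χ x J := by
  have h1 : χ x (symmDiff I J) = χ x (I \ J) * χ x (J \ I) := by
    unfold χ
    rw [symmDiff_def, Finset.sup_eq_union, Finset.prod_union]
    exact Finset.disjoint_left.2 fun i h h' =>
      (Finset.mem_sdiff.1 h').2 (Finset.mem_sdiff.1 h).1
  have h2 : χ x I = χ x (I \ J) * χ x (I ∩ J) := by
    unfold χ
    rw [← Finset.prod_union (Finset.disjoint_sdiff_inter I J), Finset.sdiff_union_inter]
  have h3 : χ x J = χ x (J \ I) * χ x (I ∩ J) := by
    unfold χ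
    rw [Finset.inter_comm, ← Finset.prod_union (Finset.disjoint_sdiff_inter J I),
      Finset.sdiff_union_inter]
  rw [h1, h2, h3]
  linear_combination (-(χ x (I \ J) * χ x (J \ I))) * chi_sq x (I ∩ J)

/-- gauge transformation of the noise -/
def gt (x : Fin n → ℤˣ) (z : Finset (Fin n) → ℝ) : Finset (Fin n) → ℝ := fun S => χ x S * z S

theorem gt_gt (x : Fin n → ℤˣ) (z : Finset (Fin n) → ℝ) : gt x (gt x z) = z := by
  funext S
  unfold gt
  rw [← mul_assoc, chi_sq, one_mul]

theorem gauge_le (h : l ≤ n) (x : Fin n → ℤˣ) (z : Finset (Fin n) → ℝ) :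
    f n l (gt x z) ≤ f n l z := by
  have := ix_nonempty h
  obtain ⟨v, hv, hv2⟩ := top_exists (KM n l (gt x z))
  have e1 : f n l (gt x z) = dotProduct v ((KM n l (gt x z)).mulVec v) := hv2
  rw [e1]
  have hv' : dotProduct (fun I => χ x I.1 * v I) (fun I => χ x I.1 * v I) = 1 := by
    rw [← hv]
    unfold dotProduct
    refine Finset.sum_congr rfl fun I _ => ?_
    linear_combination (v I * v I) * chi_sq x I.1
  refine le_trans (le_of_eq ?_) (le_top (KM n l z) hv')
  unfold dotProduct mulVec dotProduct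
  refine Finset.sum_congr rfl fun I _ => ?_
  rw [Finset.mul_sum, Finset.mul_sum]
  refine Finset.sum_congr rfl fun J _ => ?_
  simp only [KM, Matrix.of_apply, gt]
  rw [chi_symm]
  split_ifs <;> ring

theorem gauge (h : l ≤ n) (x : Fin n → ℤˣ) (z : Finset (Fin n) → ℝ) :
    f n l (gt x z) = f n l z := by
  apply le_antisymm (gauge_le h x z)
  have := gauge_le h x (gt x z)
  rwa [gt_gt] at this

theorem gt_mp (x : Fin n → ℤˣ) : MeasurePreserving (gt x) (P n) (P n) := by
  have := measurePreserving_pi (fun _ : Finset (Fin n) => γ) (fun _ : Finset (Fin n) => γ)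
    (f := fun S z => χ x S * z) (fun S => by
      refine ⟨by fun_prop, ?_⟩
      rw [gaussianReal_map_const_mul, mul_zero]
      congr 1
      apply NNReal.eq
      simp only [NNReal.coe_mk, NNReal.coe_one, mul_one]
      rw [sq, chi_sq])
  exact this

/-- the signal -/
def sh (n : ℕ) (c : ℝ) : Finset (Fin n) → ℝ := fun S => if S.card = 2 then c else 0

theorem gt_add (x : Fin n → ℤˣ) (z z' : Finset (Fin n) → ℝ) :
    gt x (z + z') = gt x z + gt x z' := by
  funext S
  simp only [gt, Pi.add_apply]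
  ring

/-- all gauges of the signal give the same expectation -/
theorem EF_eq (h : l ≤ n) (c : ℝ) (x : Fin n → ℤˣ) :
    ∫ z, f n l (z + sh n c) ∂(P n) = ∫ z, cm (gt x (sh n c)) z * f n l z ∂(P n) := by
  have h1 : ∀ z, f n l (z + sh n c) = f n l (gt x z + gt x (sh n c)) := by
    intro z
    rw [← gt_add, gauge h]
  simp_rw [h1]
  rw [int_mp (gt_mp x) (g := fun z => f n l (z + gt x (sh n c)))
    ((f_meas h).comp (measurable_id.add_const _))]
  exact int_shift (gt x (sh n c)) (f n l) (f_meas h)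

theorem inner_eq (c : ℝ) (x y : Fin n → ℤˣ) :
    ∑ S, gt x (sh n c) S * gt y (sh n c) S = c ^ 2 * ∑ S ∈ prs n, χ (x * y) S := by
  rw [Finset.mul_sum, ← Finset.univ_inter (prs n), ← Finset.sum_ite_mem]
  refine Finset.sum_congr rfl fun S _ => ?_
  simp only [gt, sh, mem_prs, chi_mul]
  split_ifs
  · ring
  · ring

theorem e2_eq (x : Fin n → ℤˣ) (T : Finset (Fin n)) :
    (∑ i ∈ T, rs (x i)) ^ 2 = T.card + 2 * ∑ S ∈ Finset.powersetCard 2 T, χ x S := by
  induction T using Finset.induction_on with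
  | empty => simp [Finset.powersetCard_eq_empty.2]
  | insert a T ha ih =>
    rw [Finset.sum_insert ha, Finset.card_insert_of_notMem ha,
      Finset.powersetCard_succ_insert ha, Finset.sum_union, Finset.sum_image]
    · have h1 : ∑ S ∈ Finset.powersetCard 1 T, χ x (insert a S) = rs (x a) * ∑ i ∈ T, rs (x i) := by
        rw [Finset.powersetCard_one, Finset.sum_map, Finset.mul_sum]
        refine Finset.sum_congr rfl fun i hi => ?_
        have hai : a ≠ i := fun h => ha (h ▸ hi)
        simp only [Function.Embedding.coeFn_mk, χ]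
        rw [Finset.prod_pair hai]
      rw [h1]
      have h2 : rs (x a) * rs (x a) = 1 := rs_sq _
      push_cast
      linear_combination ih + h2
    · intro S hS S' hS' hSS
      have hS1 := (Finset.mem_powersetCard.1 hS).1
      have hS2 := (Finset.mem_powersetCard.1 hS').1
      have e1 : (insert a S).erase a = (insert a S').erase a :=
        congrArg (fun U => Finset.erase U a) hSS
      rwa [Finset.erase_insert (fun h => ha (hS1 h)), Finset.erase_insert (fun h => ha (hS2 h))]
        at e1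
    · rw [Finset.disjoint_left]
      intro S hS hS'
      obtain ⟨U, -, rfl⟩ := Finset.mem_image.1 hS'
      exact ha ((Finset.mem_powersetCard.1 hS).1 (Finset.mem_insert_self _ _))

theorem e2_le (x : Fin n → ℤˣ) : ∑ S ∈ prs n, χ x S ≤ (∑ i, rs (x i)) ^ 2 / 2 := by
  have := e2_eq x Finset.univ
  rw [this]
  unfold prs
  have : (0 : ℝ) ≤ (Finset.univ : Finset (Fin n)).card := by positivity
  linarith

end

/-- exponential square moments of sums of signs -/
theorem rec (k : ℕ) : ∀ m : ℝ, (k : ℝ) < m →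
    ∑ x : Fin k → ℤˣ, Real.exp ((∑ i, rs (x i)) ^ 2 / (2 * m)) ≤
      2 ^ k * Real.exp (k / (2 * (m - k))) := by
  induction k with
  | zero => intro m _; simp
  | succ k ih =>
    intro m hm
    push_cast at hm
    have hk : (0 : ℝ) ≤ k := Nat.cast_nonneg k
    have hm1 : 0 < m - 1 := by linarith
    have hm0 : 0 < m := by linarith
    have h1 := ih (m - 1) (by linarith)
    rw [← (Fin.consEquiv (fun _ : Fin (k + 1) => ℤˣ)).sum_comp, Fintype.sum_prod_type_right]
    have key : ∀ s : ℝ, Real.exp ((1 + s) ^ 2 / (2 * m)) + Real.exp ((-1 + s) ^ 2 / (2 * m)) ≤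
        2 * Real.exp (1 / (2 * m)) * Real.exp (s ^ 2 / (2 * (m - 1))) := by
      intro s
      have e1 : Real.exp ((1 + s) ^ 2 / (2 * m)) + Real.exp ((-1 + s) ^ 2 / (2 * m)) =
          2 * (Real.exp (1 / (2 * m)) * Real.exp (s ^ 2 / (2 * m)) * Real.cosh (s / m)) := by
        rw [Real.cosh_eq, ← Real.exp_add]
        have a1 : (1 + s) ^ 2 / (2 * m) = (1 / (2 * m) + s ^ 2 / (2 * m)) + s / m := by
          field_simp; ring
        have a2 : (-1 + s) ^ 2 / (2 * m) = (1 / (2 * m) + s ^ 2 / (2 * m)) + -(s / m) := by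
          field_simp; ring
        rw [a1, a2, Real.exp_add _ (s / m), Real.exp_add _ (-(s / m))]
        ring
      rw [e1, mul_assoc, mul_assoc]
      apply mul_le_mul_of_nonneg_left _ (by norm_num)
      apply mul_le_mul_of_nonneg_left _ (Real.exp_pos _).le
      have h2 := Real.cosh_le_exp_half_sq (s / m)
      calc Real.exp (s ^ 2 / (2 * m)) * Real.cosh (s / m) ≤
          Real.exp (s ^ 2 / (2 * m)) * Real.exp ((s / m) ^ 2 / 2) :=
            mul_le_mul_of_nonneg_left h2 (Real.exp_pos _).le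
        _ = Real.exp (s ^ 2 / (2 * m) + (s / m) ^ 2 / 2) := (Real.exp_add _ _).symm
        _ ≤ Real.exp (s ^ 2 / (2 * (m - 1))) := by
          apply Real.exp_le_exp.2
          have a3 : s ^ 2 / (2 * m) + (s / m) ^ 2 / 2 = s ^ 2 * ((m + 1) / (2 * m ^ 2)) := by
            field_simp
          have a4 : s ^ 2 / (2 * (m - 1)) = s ^ 2 * (1 / (2 * (m - 1))) := by
            field_simp
          rw [a3, a4]
          apply mul_le_mul_of_nonneg_left _ (sq_nonneg s)
          rw [div_le_div_iff₀ (by positivity) (by positivity)]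
          nlinarith
    calc ∑ x : Fin k → ℤˣ, ∑ u : ℤˣ,
          Real.exp ((∑ i, rs ((Fin.consEquiv (fun _ : Fin (k + 1) => ℤˣ)) (u, x) i)) ^ 2 / (2 * m))
        = ∑ x : Fin k → ℤˣ, (Real.exp ((1 + ∑ i, rs (x i)) ^ 2 / (2 * m)) +
            Real.exp ((-1 + ∑ i, rs (x i)) ^ 2 / (2 * m))) := by
          refine Finset.sum_congr rfl fun x _ => ?_
          have hu : ∀ u : ℤˣ, ∑ i, rs ((Fin.consEquiv (fun _ : Fin (k + 1) => ℤˣ)) (u, x) i) =
              rs u + ∑ i, rs (x i) := by
            intro u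
            rw [Fin.sum_univ_succ]
            simp [Fin.consEquiv]
          simp_rw [hu]
          rw [UnitsInt.univ, Finset.sum_pair (by decide)]
          simp [rs]
      _ ≤ ∑ x : Fin k → ℤˣ, 2 * Real.exp (1 / (2 * m)) *
            Real.exp ((∑ i, rs (x i)) ^ 2 / (2 * (m - 1))) :=
          Finset.sum_le_sum fun x _ => key _
      _ = 2 * Real.exp (1 / (2 * m)) *
            ∑ x : Fin k → ℤˣ, Real.exp ((∑ i, rs (x i)) ^ 2 / (2 * (m - 1))) := by
          rw [Finset.mul_sum]
      _ ≤ 2 * Real.exp (1 / (2 * m)) * (2 ^ k * Real.exp (k / (2 * (m - 1 - k)))) :=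
          mul_le_mul_of_nonneg_left h1 (by positivity)
      _ = 2 ^ (k + 1) * Real.exp (1 / (2 * m) + k / (2 * (m - 1 - k))) := by
          rw [Real.exp_add]; ring
      _ ≤ 2 ^ (k + 1) * Real.exp (((k + 1 : ℕ) : ℝ) / (2 * (m - ((k + 1 : ℕ) : ℝ)))) := by
          apply mul_le_mul_of_nonneg_left _ (by positivity)
          apply Real.exp_le_exp.2
          push_cast
          have hd : 0 < m - (k + 1) := by linarith
          have a5 : m - 1 - k = m - (k + 1) := by ring
          rw [a5]
          have a6 : 1 / (2 * m) ≤ 1 / (2 * (m - (k + 1))) := by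
            apply one_div_le_one_div_of_le (by positivity)
            linarith
          rw [add_div]
          linarith

section
variable {n l : ℕ}

/-- the averaged density -/
noncomputable def LL (n : ℕ) (c : ℝ) (z : Finset (Fin n) → ℝ) : ℝ :=
  (2 ^ n)⁻¹ * ∑ x : Fin n → ℤˣ, cm (gt x (sh n c)) z

theorem card_signs : (Finset.univ : Finset (Fin n → ℤˣ)).card = 2 ^ n := by
  rw [Finset.card_univ]
  simp [Fintype.card_units_int]

theorem LL_meas (c : ℝ) : Measurable (LL n c) := by
  unfold LL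
  apply Measurable.const_mul
  exact Finset.measurable_fun_sum _ fun x _ => cm_meas _

theorem LL_int (c : ℝ) : Integrable (LL n c) (P n) := by
  unfold LL
  apply Integrable.const_mul
  exact integrable_finsetSum _ fun x _ => cm_integrable _

theorem LL_one (c : ℝ) : ∫ z, LL n c z ∂(P n) = 1 := by
  unfold LL
  rw [integral_const_mul, integral_finsetSum _ fun x _ => cm_integrable _]
  simp_rw [cm_int_one]
  rw [Finset.sum_const, card_signs, nsmul_eq_mul, mul_one]
  push_cast
  exact inv_mul_cancel₀ (by positivity)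

theorem LL_sq_eq (c : ℝ) (z : Finset (Fin n) → ℝ) :
    LL n c z ^ 2 = (2 ^ n)⁻¹ * (2 ^ n)⁻¹ * ∑ x : Fin n → ℤˣ, ∑ y : Fin n → ℤˣ,
      cm (gt x (sh n c)) z * cm (gt y (sh n c)) z := by
  unfold LL
  rw [mul_pow, sq (∑ x : Fin n → ℤˣ, cm (gt x (sh n c)) z), Finset.sum_mul_sum]
  ring

theorem LL_sq_int (c : ℝ) : Integrable (fun z => LL n c z ^ 2) (P n) := by
  simp_rw [LL_sq_eq]
  apply Integrable.const_mul
  exact integrable_finsetSum _ fun x _ => integrable_finsetSum _ fun y _ =>
    cm_mul_integrable _ _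

/-- chi-square bound -/
theorem LL_sq_le {c : ℝ} {m : ℝ} (hm : (n : ℝ) < m) (hc : c ^ 2 ≤ 1 / m) :
    ∫ z, LL n c z ^ 2 ∂(P n) ≤ Real.exp (n / (2 * (m - n))) := by
  simp_rw [LL_sq_eq]
  rw [integral_const_mul, integral_finsetSum _ fun x _ => integrable_finsetSum _ fun y _ =>
    cm_mul_integrable _ _]
  simp_rw [integral_finsetSum _ fun y _ => cm_mul_integrable _ _, cm_mul_int, inner_eq]
  have h1 : ∀ x : Fin n → ℤˣ, ∑ y : Fin n → ℤˣ, Real.exp (c ^ 2 * ∑ S ∈ prs n, χ (x * y) S) =
      ∑ y : Fin n → ℤˣ, Real.exp (c ^ 2 * ∑ S ∈ prs n, χ y S) := by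
    intro x
    exact Equiv.sum_comp (Equiv.mulLeft x) (fun y => Real.exp (c ^ 2 * ∑ S ∈ prs n, χ y S))
  simp_rw [h1]
  rw [Finset.sum_const, card_signs, nsmul_eq_mul]
  push_cast
  have hn : (0 : ℝ) ≤ n := Nat.cast_nonneg n
  have hm0 : 0 < m := by linarith
  have h2 : ∑ y : Fin n → ℤˣ, Real.exp (c ^ 2 * ∑ S ∈ prs n, χ y S) ≤
      2 ^ n * Real.exp (n / (2 * (m - n))) := by
    refine le_trans (Finset.sum_le_sum fun y _ => ?_) (rec n m hm)
    apply Real.exp_le_exp.2
    have := e2_le y
    calc c ^ 2 * ∑ S ∈ prs n, χ y S ≤ c ^ 2 * ((∑ i, rs (y i)) ^ 2 / 2) :=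
          mul_le_mul_of_nonneg_left this (sq_nonneg _)
      _ ≤ 1 / m * ((∑ i, rs (y i)) ^ 2 / 2) :=
          mul_le_mul_of_nonneg_right hc (by positivity)
      _ = (∑ i, rs (y i)) ^ 2 / (2 * m) := by field_simp
  have h3 : (0 : ℝ) < 2 ^ n := by positivity
  calc ((2 : ℝ) ^ n)⁻¹ * (2 ^ n)⁻¹ * (2 ^ n * ∑ y : Fin n → ℤˣ,
        Real.exp (c ^ 2 * ∑ S ∈ prs n, χ y S)) =
      (2 ^ n)⁻¹ * ∑ y : Fin n → ℤˣ, Real.exp (c ^ 2 * ∑ S ∈ prs n, χ y S) := by
        field_simp
    _ ≤ (2 ^ n)⁻¹ * (2 ^ n * Real.exp (n / (2 * (m - n)))) :=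
        mul_le_mul_of_nonneg_left h2 (by positivity)
    _ = Real.exp (n / (2 * (m - n))) := by field_simp

theorem f_cm_int (h : l ≤ n) (a : Finset (Fin n) → ℝ) :
    Integrable (fun z => cm a z * f n l z) (P n) := by
  have h1 : MemLp (cm a) 2 (P n) := by
    rw [memLp_two_iff_integrable_sq (cm_meas a).aestronglyMeasurable]
    simp_rw [sq]
    exact cm_mul_integrable _ _
  exact h1.integrable_mul (f_memLp h)

/-- comparison of the two expectations -/
theorem compare (h : l ≤ n) {c : ℝ} {m : ℝ} (hm : (n : ℝ) < m) (hc : c ^ 2 ≤ 1 / m)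
    {V : ℝ} (hV : ∫ z, f n l z ^ 2 ∂(P n) - (∫ z, f n l z ∂(P n)) ^ 2 ≤ V) {r : ℝ} (hr : 0 < r) :
    |∫ z, f n l (z + sh n c) ∂(P n) - ∫ z, f n l z ∂(P n)| ≤
      (V / r + r * Real.exp (n / (2 * (m - n)))) / 2 := by
  set M : ℝ := ∫ z, f n l z ∂(P n) with hM
  have hfi : Integrable (f n l) (P n) := (f_memLp h).integrable (by norm_num)
  have hf2 : Integrable (fun z => f n l z ^ 2) (P n) := (f_memLp h).integrable_sq
  have hLf : Integrable (fun z => LL n c z * f n l z) (P n) := by
    have : (fun z => LL n c z * f n l z) = fun z => (2 ^ n)⁻¹ * ∑ x : Fin n → ℤˣ,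
        cm (gt x (sh n c)) z * f n l z := by
      funext z
      unfold LL
      rw [mul_assoc, Finset.sum_mul]
    rw [this]
    apply Integrable.const_mul
    exact integrable_finsetSum _ fun x _ => f_cm_int h _
  have h1 : ∫ z, LL n c z * f n l z ∂(P n) = ∫ z, f n l (z + sh n c) ∂(P n) := by
    have : (fun z => LL n c z * f n l z) = fun z => (2 ^ n)⁻¹ * ∑ x : Fin n → ℤˣ,
        cm (gt x (sh n c)) z * f n l z := by
      funext z
      unfold LL
      rw [mul_assoc, Finset.sum_mul]
    rw [this, integral_const_mul, integral_finsetSum _ fun x _ => f_cm_int h _]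
    simp_rw [← EF_eq h c]
    rw [Finset.sum_const, card_signs, nsmul_eq_mul]
    push_cast
    rw [← mul_assoc, inv_mul_cancel₀ (by positivity), one_mul]
  have hint : Integrable (fun z => LL n c z * (f n l z - M)) (P n) := by
    have e : (fun z => LL n c z * (f n l z - M)) =
        fun z => LL n c z * f n l z - LL n c z * M := by
      funext z; ring
    rw [e]
    exact hLf.sub ((LL_int c).mul_const _)
  have h2 : ∫ z, LL n c z * (f n l z - M) ∂(P n) = ∫ z, f n l (z + sh n c) ∂(P n) - M := by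
    have e : (fun z => LL n c z * (f n l z - M)) =
        fun z => LL n c z * f n l z - LL n c z * M := by
      funext z; ring
    rw [e, integral_sub hLf ((LL_int c).mul_const _), integral_mul_const, LL_one, h1, one_mul]
  have hvar : ∫ z, (f n l z - M) ^ 2 ∂(P n) = ∫ z, f n l z ^ 2 ∂(P n) - M ^ 2 := by
    have e : (fun z => (f n l z - M) ^ 2) = fun z => (f n l z ^ 2 - 2 * M * f n l z) + M ^ 2 := by
      funext z; ring
    have hA : Integrable (fun z => f n l z ^ 2 - 2 * M * f n l z) (P n) :=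
      hf2.sub (hfi.const_mul _)
    rw [e, integral_add hA (integrable_const _),
      integral_sub hf2 (hfi.const_mul _), integral_const_mul, ← hM]
    simp only [integral_const, probReal_univ, smul_eq_mul, one_mul]
    ring
  have hvi : Integrable (fun z => (f n l z - M) ^ 2) (P n) := by
    have e : (fun z => (f n l z - M) ^ 2) = fun z => (f n l z ^ 2 - 2 * M * f n l z) + M ^ 2 := by
      funext z; ring
    rw [e]
    exact (hf2.sub (hfi.const_mul _)).add (integrable_const _)
  rw [← h2]
  have hL := LL_sq_le (n := n) hm hc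
  have hB : Integrable (fun z => (f n l z - M) ^ 2 / (2 * r) + (r / 2) * LL n c z ^ 2) (P n) :=
    (hvi.div_const _).add ((LL_sq_int c).const_mul _)
  calc |∫ z, LL n c z * (f n l z - M) ∂(P n)| ≤ ∫ z, |LL n c z * (f n l z - M)| ∂(P n) :=
        abs_integral_le_integral_abs
    _ ≤ ∫ z, ((f n l z - M) ^ 2 / (2 * r) + (r / 2) * LL n c z ^ 2) ∂(P n) := by
        apply integral_mono hint.abs hB
        intro z
        simp only
        rw [abs_mul]
        have h3 : (f n l z - M) ^ 2 / (2 * r) + (r / 2) * LL n c z ^ 2 -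
            |LL n c z| * |f n l z - M| =
            (|f n l z - M| - r * |LL n c z|) ^ 2 / (2 * r) := by
          rw [← sq_abs (f n l z - M), ← sq_abs (LL n c z)]
          field_simp
          ring
        have h4 : 0 ≤ (|f n l z - M| - r * |LL n c z|) ^ 2 / (2 * r) := by positivity
        linarith
    _ = (∫ z, f n l z ^ 2 ∂(P n) - M ^ 2) / (2 * r) + (r / 2) * ∫ z, LL n c z ^ 2 ∂(P n) := by
        rw [integral_add (hvi.div_const _) ((LL_sq_int c).const_mul _), integral_div,
          integral_const_mul, hvar]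
    _ ≤ V / (2 * r) + (r / 2) * Real.exp (n / (2 * (m - n))) := by
        apply add_le_add
        · exact div_le_div_of_nonneg_right hV (by positivity)
        · exact mul_le_mul_of_nonneg_left hL (by positivity)
    _ = (V / r + r * Real.exp (n / (2 * (m - n)))) / 2 := by
        field_simp

end

end Pool.Agent.V11222.Kik
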