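import Mathlib

/-!
The Efron-Stein inequality for square integrable functions on product spaces, in one-sided form.
-/

set_option autoImplicit false

open scoped BigOperators
open MeasureTheory

namespace Pool.Agent.V11222.Kik

section

variable {ι : Type} [Fintype ι] [DecidableEq ι] (μ : Measure ℝ) [IsProbabilityMeasure μ]

/-- the product measure -/
noncomputable abbrev PP (ι : Type) [Fintype ι] (μ : Measure ℝ) : Measure (ι → ℝ) :=
  Measure.pi fun _ : ι => μ

/-- the product measure of pairs -/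
noncomputable abbrev QQ (ι : Type) [Fintype ι] (μ : Measure ℝ) : Measure (ι → ℝ × ℝ) :=
  Measure.pi fun _ : ι => μ.prod μ

/-- select the second sample on `S`, the first one elsewhere -/
def sel (S : Finset ι) (θ : ι → ℝ × ℝ) : ι → ℝ := fun i => if i ∈ S then (θ i).2 else (θ i).1

/-- swap the two samples on `S` -/
def sw (S : Finset ι) (θ : ι → ℝ × ℝ) : ι → ℝ × ℝ := fun i => if i ∈ S then (θ i).swap else θ i

theorem mp_sel (S : Finset ι) : MeasurePreserving (sel S) (QQ ι μ) (PP ι μ) := by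
  have := measurePreserving_pi (fun _ : ι => μ.prod μ) (fun _ : ι => μ)
    (f := fun i => if i ∈ S then Prod.snd else Prod.fst) (fun i => by
      split_ifs
      · exact measurePreserving_snd
      · exact measurePreserving_fst)
  convert this using 1
  funext θ i
  unfold sel
  split_ifs <;> rfl

theorem mp_sw (S : Finset ι) : MeasurePreserving (sw S) (QQ ι μ) (QQ ι μ) := by
  have := measurePreserving_pi (fun _ : ι => μ.prod μ) (fun _ : ι => μ.prod μ)
    (f := fun i => if i ∈ S then Prod.swap else id) (fun i => by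
      split_ifs
      · exact Measure.measurePreserving_swap
      · exact MeasurePreserving.id _)
  convert this using 1
  funext θ i
  unfold sw
  split_ifs <;> rfl

theorem int_mp {α β : Type*} [MeasurableSpace α] [MeasurableSpace β] {a : Measure α}
    {b : Measure β} {f : α → β} (hf : MeasurePreserving f a b) {g : β → ℝ} (hg : Measurable g) :
    ∫ x, g (f x) ∂a = ∫ y, g y ∂b := by
  rw [← hf.map_eq]
  exact (integral_map hf.measurable.aemeasurable hg.aestronglyMeasurable).symm

theorem indep (f g : (ι → ℝ) → ℝ) (hf : Measurable f) (hg : Measurable g) :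
    ∫ θ, f (sel ∅ θ) * g (sel Finset.univ θ) ∂(QQ ι μ) =
      (∫ ω, f ω ∂(PP ι μ)) * ∫ ω, g ω ∂(PP ι μ) := by
  rw [← integral_prod_mul]
  rw [← int_mp (measurePreserving_arrowProdEquivProdArrow ℝ ℝ ι (fun _ => μ) (fun _ => μ))
    (g := fun z : (ι → ℝ) × (ι → ℝ) => f z.1 * g z.2) (by fun_prop)]
  have e1 : ∀ θ : ι → ℝ × ℝ, sel ∅ θ = fun i => (θ i).1 := fun θ => by funext i; simp [sel]
  have e2 : ∀ θ : ι → ℝ × ℝ, sel Finset.univ θ = fun i => (θ i).2 := fun θ => by
    funext i; simp [sel]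
  simp only [e1, e2]
  rfl

theorem sel_empty_sw (S : Finset ι) (θ : ι → ℝ × ℝ) : sel ∅ (sw S θ) = sel S θ := by
  funext i
  by_cases h : i ∈ S <;> simp [sel, sw, h]

theorem sel_single_sw {S : Finset ι} {j : ι} (hj : j ∉ S) (θ : ι → ℝ × ℝ) :
    sel {j} (sw S θ) = sel (insert j S) θ := by
  funext i
  by_cases hi : i = j
  · subst hi; simp [sel, sw, hj]
  · by_cases h : i ∈ S <;> simp [sel, sw, h, hi]

theorem sel_sw_single {S : Finset ι} {j : ι} (hj : j ∉ S) (θ : ι → ℝ × ℝ) :
    sel S (sw {j} θ) = sel (insert j S) θ := by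
  funext i
  by_cases hi : i = j
  · subst hi; simp [sel, sw, hj]
  · by_cases h : i ∈ S <;> simp [sel, sw, h, hi]

theorem sel_insert_sw_single {S : Finset ι} {j : ι} (hj : j ∉ S) (θ : ι → ℝ × ℝ) :
    sel (insert j S) (sw {j} θ) = sel S θ := by
  funext i
  by_cases hi : i = j
  · subst hi; simp [sel, sw, hj]
  · by_cases h : i ∈ S <;> simp [sel, sw, h, hi]

theorem sel_single_sw_self (j : ι) (θ : ι → ℝ × ℝ) : sel {j} (sw {j} θ) = sel ∅ θ := by
  funext i
  by_cases hi : i = j
  · subst hi; simp [sel, sw]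
  · simp [sel, sw, hi]

theorem sel_single (j : ι) (θ : ι → ℝ × ℝ) :
    sel {j} θ = Function.update (sel ∅ θ) j (θ j).2 := by
  funext i
  by_cases hi : i = j
  · subst hi; simp [sel]
  · simp [sel, hi]

theorem meas_sel (S : Finset ι) : Measurable (sel (ι := ι) S) := by
  apply measurable_pi_lambda
  intro i
  unfold sel
  split_ifs
  · exact (measurable_pi_apply i).snd
  · exact (measurable_pi_apply i).fst

variable {μ}

/-- the two-sample influence -/
noncomputable def Inf2 (μ : Measure ℝ) (G : (ι → ℝ) → ℝ) (j : ι) : ℝ :=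
  ∫ θ, (G (sel ∅ θ) - G (sel {j} θ)) ^ 2 ∂(QQ ι μ)

theorem ig2 {G : (ι → ℝ) → ℝ} (hL : MemLp G 2 (PP ι μ)) (S T : Finset ι) :
    Integrable (fun θ => G (sel S θ) * G (sel T θ)) (QQ ι μ) :=
  (hL.comp_measurePreserving (mp_sel μ S)).integrable_mul
    (hL.comp_measurePreserving (mp_sel μ T))

theorem sqi2 {G : (ι → ℝ) → ℝ} (hL : MemLp G 2 (PP ι μ)) (A C : Finset ι) :
    Integrable (fun θ => (G (sel A θ) - G (sel C θ)) ^ 2) (QQ ι μ) := by
  refine (((ig2 hL A A).sub ((ig2 hL A C).const_mul 2)).add (ig2 hL C C)).congr ?_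
  exact Filter.Eventually.of_forall fun θ => by
    simp only [Pi.sub_apply, Pi.add_apply]; ring

/-- Efron-Stein inequality -/
theorem efron (G : (ι → ℝ) → ℝ) (hG : Measurable G) (hL : MemLp G 2 (PP ι μ)) :
    ∫ ω, G ω ^ 2 ∂(PP ι μ) - (∫ ω, G ω ∂(PP ι μ)) ^ 2 ≤ (1 / 2) * ∑ j, Inf2 μ G j := by
  have gm : ∀ S : Finset ι, Measurable fun θ => G (sel S θ) := fun S => hG.comp (meas_sel S)
  have ig := ig2 hL
  have main : ∀ S : Finset ι, ∫ θ, (G (sel ∅ θ) * G (sel ∅ θ) - G (sel ∅ θ) * G (sel S θ))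
      ∂(QQ ι μ) ≤ (1 / 2) * ∑ j ∈ S, Inf2 μ G j := by
    intro S
    induction S using Finset.induction_on with
    | empty => simp
    | insert j S hj ih =>
      rw [Finset.sum_insert hj, mul_add]
      have iS : Integrable (fun θ => G (sel ∅ θ) * G (sel ∅ θ) - G (sel ∅ θ) * G (sel S θ))
          (QQ ι μ) := (ig _ _).sub (ig _ _)
      have i1 : Integrable (fun θ => G (sel ∅ θ) * (G (sel S θ) - G (sel (insert j S) θ)))
          (QQ ι μ) := by
        refine ((ig ∅ S).sub (ig ∅ (insert j S))).congr ?_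
        exact Filter.Eventually.of_forall fun θ => by simp only [Pi.sub_apply]; ring
      have e1 : ∫ θ, (G (sel ∅ θ) * G (sel ∅ θ) - G (sel ∅ θ) * G (sel (insert j S) θ)) ∂(QQ ι μ)
          = ∫ θ, (G (sel ∅ θ) * G (sel ∅ θ) - G (sel ∅ θ) * G (sel S θ)) ∂(QQ ι μ) +
            ∫ θ, G (sel ∅ θ) * (G (sel S θ) - G (sel (insert j S) θ)) ∂(QQ ι μ) := by
        rw [← integral_add iS i1]
        apply integral_congr_ae
        exact Filter.Eventually.of_forall fun θ => by ring
      -- the swapped integral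
      have e2 : ∫ θ, G (sel ∅ θ) * (G (sel S θ) - G (sel (insert j S) θ)) ∂(QQ ι μ) =
          ∫ θ, G (sel {j} θ) * (G (sel (insert j S) θ) - G (sel S θ)) ∂(QQ ι μ) := by
        rw [← int_mp (mp_sw μ {j})
          (g := fun θ => G (sel ∅ θ) * (G (sel S θ) - G (sel (insert j S) θ)))
          ((gm ∅).mul ((gm S).sub (gm (insert j S))))]
        apply integral_congr_ae
        refine Filter.Eventually.of_forall fun θ => ?_
        simp only [sel_empty_sw, sel_sw_single hj, sel_insert_sw_single hj]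
      have i2 : Integrable (fun θ => G (sel {j} θ) * (G (sel (insert j S) θ) - G (sel S θ)))
          (QQ ι μ) := by
        refine ((ig {j} (insert j S)).sub (ig {j} S)).congr ?_
        exact Filter.Eventually.of_forall fun θ => by simp only [Pi.sub_apply]; ring
      have sqi := sqi2 hL
      have e3 : ∫ θ, (G (sel S θ) - G (sel (insert j S) θ)) ^ 2 ∂(QQ ι μ) = Inf2 μ G j := by
        unfold Inf2
        rw [← int_mp (mp_sw μ S) (g := fun θ => (G (sel ∅ θ) - G (sel {j} θ)) ^ 2)
          (((gm ∅).sub (gm {j})).pow_const 2)]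
        apply integral_congr_ae
        refine Filter.Eventually.of_forall fun θ => ?_
        simp only [sel_empty_sw, sel_single_sw hj]
      have e4 : 2 * ∫ θ, G (sel ∅ θ) * (G (sel S θ) - G (sel (insert j S) θ)) ∂(QQ ι μ) ≤
          (1 / 2) * Inf2 μ G j + (1 / 2) * Inf2 μ G j := by
        calc 2 * ∫ θ, G (sel ∅ θ) * (G (sel S θ) - G (sel (insert j S) θ)) ∂(QQ ι μ)
            = ∫ θ, G (sel ∅ θ) * (G (sel S θ) - G (sel (insert j S) θ)) ∂(QQ ι μ) +
              ∫ θ, G (sel {j} θ) * (G (sel (insert j S) θ) - G (sel S θ)) ∂(QQ ι μ) := by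
                rw [← e2]; ring
          _ = ∫ θ, (G (sel ∅ θ) * (G (sel S θ) - G (sel (insert j S) θ)) +
              G (sel {j} θ) * (G (sel (insert j S) θ) - G (sel S θ))) ∂(QQ ι μ) :=
                (integral_add i1 i2).symm
          _ ≤ ∫ θ, ((1 / 2) * (G (sel ∅ θ) - G (sel {j} θ)) ^ 2 +
              (1 / 2) * (G (sel S θ) - G (sel (insert j S) θ)) ^ 2) ∂(QQ ι μ) := by
                apply integral_mono (i1.add i2) (((sqi _ _).const_mul _).add
                  ((sqi _ _).const_mul _))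
                intro θ
                simp only [Pi.add_apply]
                nlinarith [sq_nonneg ((G (sel ∅ θ) - G (sel {j} θ)) -
                  (G (sel S θ) - G (sel (insert j S) θ)))]
          _ = (1 / 2) * Inf2 μ G j + (1 / 2) * Inf2 μ G j := by
                rw [integral_add ((sqi _ _).const_mul _) ((sqi _ _).const_mul _),
                  integral_const_mul, integral_const_mul, e3]
                rfl
      rw [e1]
      linarith
  have h1 := main Finset.univ
  have h2 : ∫ θ, (G (sel ∅ θ) * G (sel ∅ θ) - G (sel ∅ θ) * G (sel Finset.univ θ)) ∂(QQ ι μ) =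
      ∫ ω, G ω ^ 2 ∂(PP ι μ) - (∫ ω, G ω ∂(PP ι μ)) ^ 2 := by
    rw [integral_sub (ig _ _) (ig _ _), indep μ G G hG hG, sq (∫ ω, G ω ∂(PP ι μ))]
    congr 1
    rw [← int_mp (mp_sel μ ∅) (g := fun ω => G ω ^ 2) (hG.pow_const 2)]
    apply integral_congr_ae
    exact Filter.Eventually.of_forall fun θ => by ring
  rw [h2] at h1
  exact h1

theorem posi {G : (ι → ℝ) → ℝ} (hG : Measurable G) (hL : MemLp G 2 (PP ι μ)) (A C : Finset ι) :
    Integrable (fun θ => (max (G (sel A θ) - G (sel C θ)) 0) ^ 2) (QQ ι μ) := by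
  refine (sqi2 hL A C).mono' ?_ ?_
  · exact (((hG.comp (meas_sel A)).sub (hG.comp (meas_sel C))).max
      measurable_const |>.pow_const 2).aestronglyMeasurable
  · refine Filter.Eventually.of_forall fun θ => ?_
    rw [Real.norm_eq_abs, abs_of_nonneg (sq_nonneg _)]
    rcases le_total 0 (G (sel A θ) - G (sel C θ)) with h | h
    · rw [max_eq_left h]
    · rw [max_eq_right h]
      nlinarith [sq_nonneg (G (sel A θ) - G (sel C θ))]

theorem inf2_half (G : (ι → ℝ) → ℝ) (hG : Measurable G) (hL : MemLp G 2 (PP ι μ)) (j : ι) :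
    (1 / 2) * Inf2 μ G j = ∫ θ, (max (G (sel ∅ θ) - G (sel {j} θ)) 0) ^ 2 ∂(QQ ι μ) := by
  have h1 : ∫ θ, (max (G (sel {j} θ) - G (sel ∅ θ)) 0) ^ 2 ∂(QQ ι μ) =
      ∫ θ, (max (G (sel ∅ θ) - G (sel {j} θ)) 0) ^ 2 ∂(QQ ι μ) := by
    rw [← int_mp (mp_sw μ {j}) (g := fun θ => (max (G (sel {j} θ) - G (sel ∅ θ)) 0) ^ 2)
      ((((hG.comp (meas_sel {j})).sub (hG.comp (meas_sel ∅))).max measurable_const).pow_const 2)]
    apply integral_congr_ae
    refine Filter.Eventually.of_forall fun θ => ?_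
    simp only [sel_empty_sw, sel_single_sw_self]
  have h2 : Inf2 μ G j = ∫ θ, (max (G (sel ∅ θ) - G (sel {j} θ)) 0) ^ 2 ∂(QQ ι μ) +
      ∫ θ, (max (G (sel {j} θ) - G (sel ∅ θ)) 0) ^ 2 ∂(QQ ι μ) := by
    rw [← integral_add (posi hG hL _ _) (posi hG hL _ _)]
    unfold Inf2
    apply integral_congr_ae
    refine Filter.Eventually.of_forall fun θ => ?_
    simp only
    rcases le_total 0 (G (sel ∅ θ) - G (sel {j} θ)) with h | h
    · rw [max_eq_left h, max_eq_right (by linarith)]
      ring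
    · rw [max_eq_right h, max_eq_left (by linarith)]
      ring
  rw [h2, h1]
  ring

/-- Efron-Stein inequality, one-sided form, with a pointwise bound of the sum of the squares of
the positive parts. -/
theorem efron_one (G : (ι → ℝ) → ℝ) (hG : Measurable G) (hL : MemLp G 2 (PP ι μ))
    (M : (ι → ℝ × ℝ) → ℝ) (hM : Integrable M (QQ ι μ))
    (h : ∀ θ, ∑ j, (max (G (sel ∅ θ) - G (sel {j} θ)) 0) ^ 2 ≤ M θ) :
    ∫ ω, G ω ^ 2 ∂(PP ι μ) - (∫ ω, G ω ∂(PP ι μ)) ^ 2 ≤ ∫ θ, M θ ∂(QQ ι μ) := by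
  refine (efron G hG hL).trans ?_
  rw [Finset.mul_sum]
  simp_rw [inf2_half G hG hL]
  rw [← integral_finsetSum _ fun j _ => posi hG hL _ _]
  exact integral_mono (integrable_finsetSum _ fun j _ => posi hG hL _ _) hM h

end

end Pool.Agent.V11222.Kik
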