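import Pool.Agent.V11222.Kik.Var

/-!
Lower bound for the expected top eigenvalue of pure noise.
-/

set_option autoImplicit false

open Matrix MeasureTheory ProbabilityTheory
open scoped NNReal

namespace Pool.Agent.V11222.Kik

/-- first absolute moment of the standard Gaussian -/
noncomputable def κ : ℝ := ∫ x, |x| ∂γ

theorem abs_int : Integrable (fun x : ℝ => |x|) γ := by
  have h1 : MemLp (id : ℝ → ℝ) 1 γ := memLp_id_gaussianReal 1
  have h2 := (memLp_one_iff_integrable.1 h1).abs
  exact h2

theorem κ_pos : 0 < κ := by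
  have h0 : 0 ≤ κ := integral_nonneg fun x => abs_nonneg x
  rcases h0.lt_or_eq with h | h
  · exact h
  · exfalso
    have h1 := (integral_eq_zero_iff_of_nonneg (fun x => abs_nonneg x) abs_int).1 h.symm
    have h2 : ∀ᵐ x ∂γ, x = 0 := by
      filter_upwards [h1] with x hx
      simpa using hx
    have h3 : γ {(0 : ℝ)} = 0 := by
      have := nullSingletonClass_gaussianReal (μ := 0) (v := 1) one_ne_zero
      exact measure_singleton 0
    have h4 : γ {(0 : ℝ)}ᶜ = 0 := by
      have := ae_iff.1 h2
      exact this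
    have h5 : γ (Set.univ : Set ℝ) = 0 := by
      rw [← Set.union_compl_self {(0 : ℝ)}]
      exact measure_union_null h3 h4
    rw [measure_univ] at h5
    exact one_ne_zero h5

section
variable {n l : ℕ}

theorem KM_neg (z : Finset (Fin n) → ℝ) : KM n l (-z) = -KM n l z := by
  ext I J
  simp only [KM, Matrix.of_apply, Matrix.neg_apply, Pi.neg_apply]
  split_ifs <;> simp

/-- pointwise lower bound -/
theorem star (z : Finset (Fin n) → ℝ) (I0 : Ix n l) (N : Finset (Ix n l))
    (hN : ∀ J ∈ N, (symmDiff I0.1 J.1).card = 2) (hNpos : 0 < N.card) :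
    2 / Real.sqrt N.card * ∑ J ∈ N, |z (symmDiff I0.1 J.1)| ≤ f n l z + f n l (-z) := by
  have hI0 : I0 ∉ N := by
    intro h
    have := hN I0 h
    simp at this
  set s : Ix n l → ℝ := fun J => if 0 ≤ z (symmDiff I0.1 J.1) then 1 else -1 with hs
  have hs2 : ∀ J, s J * s J = 1 := by
    intro J
    simp only [hs]
    split_ifs <;> norm_num
  have hsz : ∀ J, z (symmDiff I0.1 J.1) * s J = |z (symmDiff I0.1 J.1)| := by
    intro J
    simp only [hs]
    split_ifs with h
    · rw [abs_of_nonneg h, mul_one]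
    · rw [abs_of_neg (not_le.1 h)]
      ring
  have hm : (0 : ℝ) < N.card := by exact_mod_cast hNpos
  set α : ℝ := (Real.sqrt 2)⁻¹ with hα
  set β : ℝ := (Real.sqrt 2)⁻¹ * (Real.sqrt N.card)⁻¹ with hβ
  have hα2 : α * α = 1 / 2 := by
    rw [hα, ← mul_inv, Real.mul_self_sqrt (by norm_num)]
    norm_num
  have hβ2 : (N.card : ℝ) * (β * β) = 1 / 2 := by
    have h1 : (Real.sqrt N.card)⁻¹ * (Real.sqrt N.card)⁻¹ = (N.card : ℝ)⁻¹ := by
      rw [← mul_inv, Real.mul_self_sqrt hm.le]
    have h2 : (Real.sqrt 2)⁻¹ * (Real.sqrt 2)⁻¹ = (1 / 2 : ℝ) := hα2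
    calc (N.card : ℝ) * (β * β) = N.card * (((Real.sqrt 2)⁻¹ * (Real.sqrt 2)⁻¹) *
          ((Real.sqrt N.card)⁻¹ * (Real.sqrt N.card)⁻¹)) := by rw [hβ]; ring
      _ = 1 / 2 := by rw [h1, h2]; field_simp
  have hαβ : 4 * (α * β) = 2 / Real.sqrt N.card := by
    have h2 : (Real.sqrt 2)⁻¹ * (Real.sqrt 2)⁻¹ = (1 / 2 : ℝ) := hα2
    calc 4 * (α * β) = 4 * (((Real.sqrt 2)⁻¹ * (Real.sqrt 2)⁻¹) * (Real.sqrt N.card)⁻¹) := by
          rw [hα, hβ]; ring
      _ = 2 / Real.sqrt N.card := by rw [h2]; ring
  set p : Ix n l → ℝ := fun I => if I = I0 then α else 0 with hp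
  set q : Ix n l → ℝ := fun I => if I ∈ N then β * s I else 0 with hq
  have hpp : dotProduct p p = α * α := by
    simp [dotProduct, hp]
  have hpq : dotProduct p q = 0 := by
    simp only [dotProduct, hp, hq]
    apply Finset.sum_eq_zero
    intro I _
    by_cases h : I = I0
    · subst h
      simp [hI0]
    · simp [h]
  have hqp : dotProduct q p = 0 := by rw [dotProduct_comm]; exact hpq
  have hqq : dotProduct q q = N.card * (β * β) := by
    have : ∀ I, q I * q I = if I ∈ N then β * β else 0 := by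
      intro I
      simp only [hq]
      split_ifs
      · linear_combination (β * β) * hs2 I
      · ring
    simp only [dotProduct]
    simp_rw [this]
    rw [Finset.sum_ite_mem, Finset.univ_inter, Finset.sum_const, nsmul_eq_mul]
  set A := KM n l z with hA
  have hpAq : dotProduct p (A.mulVec q) = α * β * ∑ J ∈ N, |z (symmDiff I0.1 J.1)| := by
    have h1 : dotProduct p (A.mulVec q) = α * (A.mulVec q) I0 := by
      simp [dotProduct, hp]
    rw [h1]
    have h2 : (A.mulVec q) I0 = ∑ J ∈ N, z (symmDiff I0.1 J.1) * (β * s J) := by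
      simp only [mulVec, dotProduct, hq]
      simp_rw [mul_ite, mul_zero]
      rw [Finset.sum_ite_mem, Finset.univ_inter]
      refine Finset.sum_congr rfl fun J hJ => ?_
      simp only [hA, KM, Matrix.of_apply]
      rw [if_pos (hN J hJ)]
    rw [h2, Finset.mul_sum, Finset.mul_sum]
    refine Finset.sum_congr rfl fun J _ => ?_
    rw [← hsz J]
    ring
  have hqAp : dotProduct q (A.mulVec p) = α * β * ∑ J ∈ N, |z (symmDiff I0.1 J.1)| := by
    have h1 : ∀ I, (A.mulVec p) I = A I I0 * α := by
      intro I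
      simp [mulVec, dotProduct, hp]
    simp only [dotProduct, hq]
    simp_rw [h1, ite_mul, zero_mul]
    rw [Finset.sum_ite_mem, Finset.univ_inter, Finset.mul_sum]
    refine Finset.sum_congr rfl fun J hJ => ?_
    rw [← hsz J]
    simp only [hA, KM, Matrix.of_apply]
    rw [symmDiff_comm J.1 I0.1, if_pos (hN J hJ)]
    ring
  have hv1 : dotProduct (p + q) (p + q) = 1 := by
    rw [add_dotProduct, dotProduct_add, dotProduct_add, hpp, hpq, hqp, hqq, hα2, hβ2]
    norm_num
  have hv2 : dotProduct (q - p) (q - p) = 1 := by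
    rw [sub_dotProduct, dotProduct_sub, dotProduct_sub, hpp, hpq, hqp, hqq, hα2, hβ2]
    norm_num
  have h1 := le_top A hv1
  have h2 := le_top (KM n l (-z)) hv2
  rw [KM_neg, neg_mulVec, dotProduct_neg] at h2
  have e1 : dotProduct (p + q) (A.mulVec (p + q)) = dotProduct p (A.mulVec p) +
      dotProduct p (A.mulVec q) + dotProduct q (A.mulVec p) + dotProduct q (A.mulVec q) := by
    rw [mulVec_add, add_dotProduct, dotProduct_add, dotProduct_add]
    ring
  have e2 : dotProduct (q - p) (A.mulVec (q - p)) = dotProduct p (A.mulVec p) -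
      dotProduct p (A.mulVec q) - dotProduct q (A.mulVec p) + dotProduct q (A.mulVec q) := by
    rw [mulVec_sub, sub_dotProduct, dotProduct_sub, dotProduct_sub]
    ring
  have h3 : f n l z = top A := rfl
  have h4 : f n l (-z) = top (KM n l (-z)) := rfl
  rw [← KM_neg] at h2
  rw [← h3] at h1
  rw [← h4] at h2
  rw [← hαβ]
  rw [← hA] at h2
  have h5 := add_le_add h1 h2
  rw [e1, e2, hpAq, hqAp] at h5
  linarith

theorem neg_mp : MeasurePreserving (fun z : Finset (Fin n) → ℝ => -z) (P n) (P n) := by
  have := measurePreserving_pi (fun _ : Finset (Fin n) => γ) (fun _ : Finset (Fin n) => γ)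
    (f := fun _ z => -z) (fun _ => by
      refine ⟨by fun_prop, ?_⟩
      rw [gaussianReal_map_neg, neg_zero])
  exact this

theorem coord_abs_int (S : Finset (Fin n)) : Integrable (fun z : Finset (Fin n) → ℝ => |z S|)
    (P n) :=
  (measurePreserving_eval (fun _ : Finset (Fin n) => γ) S).integrable_comp_of_integrable abs_int

theorem coord_abs_val (S : Finset (Fin n)) : ∫ z : Finset (Fin n) → ℝ, |z S| ∂(P n) = κ :=
  int_mp (measurePreserving_eval (fun _ : Finset (Fin n) => γ) S)
    (g := fun x : ℝ => |x|) (by fun_prop)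

theorem low_of (h : l ≤ n) (I0 : Ix n l) (N : Finset (Ix n l))
    (hN : ∀ J ∈ N, (symmDiff I0.1 J.1).card = 2) (hNpos : 0 < N.card) :
    Real.sqrt N.card * κ ≤ ∫ z, f n l z ∂(P n) := by
  have hi : Integrable (f n l) (P n) := (f_memLp h).integrable (by norm_num)
  have hi2 : Integrable (fun z => f n l (-z)) (P n) :=
    (neg_mp (n := n)).integrable_comp_of_integrable hi
  have h1 : ∫ z, f n l (-z) ∂(P n) = ∫ z, f n l z ∂(P n) :=
    int_mp (neg_mp (n := n)) (f_meas h)
  have h2 : ∫ z, 2 / Real.sqrt N.card * ∑ J ∈ N, |z (symmDiff I0.1 J.1)| ∂(P n) ≤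
      ∫ z, (f n l z + f n l (-z)) ∂(P n) := by
    apply integral_mono _ (hi.add hi2)
    · intro z
      exact star z I0 N hN hNpos
    · apply Integrable.const_mul
      exact integrable_finsetSum _ fun J _ => coord_abs_int _
  rw [integral_add hi hi2, h1, integral_const_mul, integral_finsetSum _ fun J _ =>
    coord_abs_int _] at h2
  simp_rw [coord_abs_val] at h2
  rw [Finset.sum_const, nsmul_eq_mul] at h2
  have hm : (0 : ℝ) < N.card := by exact_mod_cast hNpos
  have h3 : 2 / Real.sqrt N.card * (N.card * κ) = 2 * (Real.sqrt N.card * κ) := by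
    have h4 : (N.card : ℝ) = Real.sqrt N.card * Real.sqrt N.card :=
      (Real.mul_self_sqrt hm.le).symm
    have h5 : Real.sqrt N.card ≠ 0 := (Real.sqrt_pos.2 hm).ne'
    calc 2 / Real.sqrt N.card * (N.card * κ) =
        2 / Real.sqrt N.card * ((Real.sqrt N.card * Real.sqrt N.card) * κ) := by rw [← h4]
      _ = 2 * (Real.sqrt N.card * κ) := by field_simp
  rw [h3] at h2
  linarith

/-- lower bound for the expected top eigenvalue of pure noise -/
theorem low (hl : 1 ≤ l) (h : l < n) :
    Real.sqrt ((n : ℝ) - l) * κ ≤ ∫ z, f n l z ∂(P n) := by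
  obtain ⟨I0⟩ := ix_nonempty (n := n) (l := l) h.le
  obtain ⟨a, ha⟩ : I0.1.Nonempty := Finset.card_pos.1 (by rw [I0.2]; omega)
  have hcard : ∀ b : {b // b ∈ (Finset.univ \ I0.1)}, (insert b.1 (I0.1.erase a)).card = l := by
    intro b
    have hb := (Finset.mem_sdiff.1 b.2).2
    rw [Finset.card_insert_of_notMem (fun h => hb (Finset.mem_of_mem_erase h)),
      Finset.card_erase_of_mem ha, I0.2]
    omega
  let g : {b // b ∈ (Finset.univ \ I0.1)} → Ix n l := fun b => ⟨insert b.1 (I0.1.erase a), hcard b⟩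
  have hg : Function.Injective g := by
    intro b b' hbb
    have h1 : insert b.1 (I0.1.erase a) = insert b'.1 (I0.1.erase a) := congrArg Subtype.val hbb
    have h2 : b.1 ∈ insert b'.1 (I0.1.erase a) := by rw [← h1]; exact Finset.mem_insert_self _ _
    rcases Finset.mem_insert.1 h2 with h3 | h3
    · exact Subtype.ext h3
    · exact absurd (Finset.mem_of_mem_erase h3) (Finset.mem_sdiff.1 b.2).2
  have hN : ∀ J ∈ Finset.univ.image g, (symmDiff I0.1 J.1).card = 2 := by
    intro J hJ
    obtain ⟨b, -, rfl⟩ := Finset.mem_image.1 hJ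
    have hb := (Finset.mem_sdiff.1 b.2).2
    have hab : a ≠ b.1 := fun h => hb (h ▸ ha)
    have : symmDiff I0.1 (g b).1 = {a, b.1} := by
      ext x
      simp only [g, Finset.mem_symmDiff, Finset.mem_insert, Finset.mem_erase,
        Finset.mem_singleton]
      by_cases h1 : x = a
      · subst h1
        simp [ha, hab]
      · by_cases h2 : x = b.1
        · subst h2
          simp [hb]
        · simp [h1, h2]
    rw [this, Finset.card_pair hab]
  have hc : (Finset.univ.image g).card = n - l := by
    rw [Finset.card_image_of_injective _ hg, Finset.card_univ, Fintype.card_coe,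
      Finset.card_sdiff_of_subset (Finset.subset_univ _), Finset.card_univ, Fintype.card_fin, I0.2]
  have := low_of h.le I0 (Finset.univ.image g) hN (by rw [hc]; omega)
  rw [hc, Nat.cast_sub h.le] at this
  exact this

end

end Pool.Agent.V11222.Kik
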