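import Pool.Agent.V11222.Kik.Top

/-!
The quadratic form of the Kikuchi matrix of order 2 (level `l`), as a linear form in the entries.
-/

set_option autoImplicit false

open Matrix

namespace Pool.Agent.V11222.Kik

/-- the `l`-subsets of `[n]` -/
abbrev Ix (n l : ℕ) : Type := {K : Finset (Fin n) // K.card = l}

/-- Kikuchi matrix of order 2 at level `l` -/
def KM (n l : ℕ) (z : Finset (Fin n) → ℝ) : Matrix (Ix n l) (Ix n l) ℝ :=
  Matrix.of fun I J => if (symmDiff I.1 J.1).card = 2 then z (symmDiff I.1 J.1) else 0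

/-- its top -/
noncomputable def f (n l : ℕ) (z : Finset (Fin n) → ℝ) : ℝ := top (KM n l z)

/-- the pairs -/
def prs (n : ℕ) : Finset (Finset (Fin n)) := Finset.powersetCard 2 Finset.univ

theorem mem_prs {n : ℕ} {S : Finset (Fin n)} : S ∈ prs n ↔ S.card = 2 := by
  simp [prs, Finset.mem_powersetCard]

section
variable {n l : ℕ}

/-- the coefficient of `z S` in the quadratic form -/
def q (v : Ix n l → ℝ) (S : Finset (Fin n)) : ℝ :=
  ∑ I : Ix n l, ∑ J : Ix n l, if symmDiff I.1 J.1 = S then v I * v J else 0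

/-- the occupation of site `i` -/
def w (v : Ix n l → ℝ) (i : Fin n) : ℝ := ∑ I : Ix n l, if i ∈ I.1 then v I ^ 2 else 0

theorem quad (v : Ix n l → ℝ) (z : Finset (Fin n) → ℝ) :
    dotProduct v ((KM n l z).mulVec v) = ∑ S ∈ prs n, z S * q v S := by
  unfold q
  simp_rw [Finset.mul_sum]
  rw [Finset.sum_comm]
  unfold dotProduct mulVec dotProduct
  refine Finset.sum_congr rfl fun I _ => ?_
  rw [Finset.sum_comm, Finset.mul_sum]
  refine Finset.sum_congr rfl fun J _ => ?_
  simp_rw [mul_ite, mul_zero]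
  rw [Finset.sum_ite_eq]
  simp only [KM, Matrix.of_apply, mem_prs]
  split_ifs
  · ring
  · ring

theorem row_le (S : Finset (Fin n)) (a : Fin n) (I : Ix n l) :
    ∑ J : Ix n l, (if symmDiff I.1 J.1 = S ∧ a ∈ I.1 then (1 : ℝ) else 0) ≤
      if a ∈ I.1 then 1 else 0 := by
  by_cases ha : a ∈ I.1
  · simp only [ha, and_true, if_true]
    rw [Finset.sum_boole]
    have : (Finset.univ.filter fun J : Ix n l => symmDiff I.1 J.1 = S).card ≤ 1 := by
      rw [Finset.card_le_one]
      intro J hJ J' hJ'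
      simp only [Finset.mem_filter, Finset.mem_univ, true_and] at hJ hJ'
      apply Subtype.ext
      exact symmDiff_right_injective I.1 (hJ.trans hJ'.symm)
    exact_mod_cast this
  · simp [ha]

theorem mem_of {S : Finset (Fin n)} {a b : Fin n} (hS : S = {a, b}) {I J : Ix n l}
    (h : symmDiff I.1 J.1 = S) (ha : a ∈ I.1) : b ∈ J.1 := by
  have haS : a ∈ symmDiff I.1 J.1 := by rw [h, hS]; simp
  have haJ : a ∈ I.1 \ J.1 := by
    rw [Finset.mem_symmDiff] at haS
    rcases haS with h1 | h1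
    · exact Finset.mem_sdiff.2 h1
    · exact absurd ha h1.2
  have hc : (I.1 \ J.1).card = (J.1 \ I.1).card :=
    Finset.card_sdiff_comm (by rw [I.2, J.2])
  have hpos : 0 < (J.1 \ I.1).card := by
    rw [← hc]
    exact Finset.card_pos.2 ⟨a, haJ⟩
  obtain ⟨c, hcm⟩ := Finset.card_pos.1 hpos
  have hc1 := Finset.mem_sdiff.1 hcm
  have hcS : c ∈ symmDiff I.1 J.1 := Finset.mem_symmDiff.2 (Or.inr hc1)
  rw [h, hS] at hcS
  simp only [Finset.mem_insert, Finset.mem_singleton] at hcS
  rcases hcS with rfl | rfl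
  · exact absurd ha hc1.2
  · exact hc1.1

theorem col_le {S : Finset (Fin n)} {a b : Fin n} (hS : S = {a, b}) (J : Ix n l) :
    ∑ I : Ix n l, (if symmDiff I.1 J.1 = S ∧ a ∈ I.1 then (1 : ℝ) else 0) ≤
      if b ∈ J.1 then 1 else 0 := by
  by_cases hb : b ∈ J.1
  · simp only [hb, if_true]
    rw [Finset.sum_boole]
    have : (Finset.univ.filter fun I : Ix n l => symmDiff I.1 J.1 = S ∧ a ∈ I.1).card ≤ 1 := by
      rw [Finset.card_le_one]
      intro I hI I' hI'
      simp only [Finset.mem_filter, Finset.mem_univ, true_and] at hI hI'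
      apply Subtype.ext
      exact symmDiff_left_injective J.1 (hI.1.trans hI'.1.symm)
    exact_mod_cast this
  · simp only [hb, if_false]
    apply le_of_eq
    apply Finset.sum_eq_zero
    intro I _
    rw [if_neg]
    rintro ⟨h1, h2⟩
    exact hb (mem_of hS h1 h2)

theorem q_half (v : Ix n l → ℝ) {S : Finset (Fin n)} {a : Fin n} (ha : a ∈ S) :
    q v S = 2 * ∑ I : Ix n l, ∑ J : Ix n l,
      (if symmDiff I.1 J.1 = S ∧ a ∈ I.1 then v I * v J else 0) := by
  have h1 : q v S = ∑ I : Ix n l, ∑ J : Ix n l,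
      (if symmDiff I.1 J.1 = S ∧ a ∈ I.1 then v I * v J else 0) +
      ∑ I : Ix n l, ∑ J : Ix n l,
      (if symmDiff I.1 J.1 = S ∧ a ∈ J.1 then v I * v J else 0) := by
    unfold q
    rw [← Finset.sum_add_distrib]
    refine Finset.sum_congr rfl fun I _ => ?_
    rw [← Finset.sum_add_distrib]
    refine Finset.sum_congr rfl fun J _ => ?_
    by_cases h : symmDiff I.1 J.1 = S
    · have haS : a ∈ symmDiff I.1 J.1 := by rw [h]; exact ha
      rw [Finset.mem_symmDiff] at haS
      rcases haS with ⟨h1, h2⟩ | ⟨h1, h2⟩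
      · simp [h, h1, h2]
      · simp [h, h1, h2]
    · simp [h]
  rw [h1, two_mul]
  congr 1
  rw [Finset.sum_comm]
  refine Finset.sum_congr rfl fun I _ => ?_
  refine Finset.sum_congr rfl fun J _ => ?_
  rw [symmDiff_comm, mul_comm (v J)]

theorem q_sq (v : Ix n l → ℝ) {S : Finset (Fin n)} (hS : S ∈ prs n) :
    q v S ^ 2 ≤ 4 * ∏ i ∈ S, w v i := by
  obtain ⟨a, b, hab, rfl⟩ := Finset.card_eq_two.1 (mem_prs.1 hS)
  rw [Finset.prod_pair hab, q_half v (a := a) (by simp)]
  set S : Finset (Fin n) := {a, b} with hSdef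
  have h1 : ∑ I : Ix n l, ∑ J : Ix n l,
      (if symmDiff I.1 J.1 = S ∧ a ∈ I.1 then v I * v J else 0) =
      ∑ p : Ix n l × Ix n l, ((if symmDiff p.1.1 p.2.1 = S ∧ a ∈ p.1.1 then (1 : ℝ) else 0) * v p.1)
        * ((if symmDiff p.1.1 p.2.1 = S ∧ a ∈ p.1.1 then (1 : ℝ) else 0) * v p.2) := by
    rw [Fintype.sum_prod_type]
    refine Finset.sum_congr rfl fun I _ => ?_
    refine Finset.sum_congr rfl fun J _ => ?_
    simp only
    split_ifs <;> ring
  have h2 := Finset.sum_mul_sq_le_sq_mul_sq (Finset.univ : Finset (Ix n l × Ix n l))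
    (fun p => (if symmDiff p.1.1 p.2.1 = S ∧ a ∈ p.1.1 then (1 : ℝ) else 0) * v p.1)
    (fun p => (if symmDiff p.1.1 p.2.1 = S ∧ a ∈ p.1.1 then (1 : ℝ) else 0) * v p.2)
  rw [← h1] at h2
  have h3 : ∑ p : Ix n l × Ix n l,
      ((if symmDiff p.1.1 p.2.1 = S ∧ a ∈ p.1.1 then (1 : ℝ) else 0) * v p.1) ^ 2 ≤ w v a := by
    rw [Fintype.sum_prod_type]
    unfold w
    refine Finset.sum_le_sum fun I _ => ?_
    have e : ∑ J : Ix n l,
        ((if symmDiff I.1 J.1 = S ∧ a ∈ I.1 then (1 : ℝ) else 0) * v I) ^ 2 =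
        (∑ J : Ix n l, (if symmDiff I.1 J.1 = S ∧ a ∈ I.1 then (1 : ℝ) else 0)) * v I ^ 2 := by
      rw [Finset.sum_mul]
      refine Finset.sum_congr rfl fun J _ => ?_
      split_ifs <;> ring
    rw [e]
    have := mul_le_mul_of_nonneg_right (row_le S a I) (sq_nonneg (v I))
    refine this.trans (le_of_eq ?_)
    split_ifs <;> ring
  have h4 : ∑ p : Ix n l × Ix n l,
      ((if symmDiff p.1.1 p.2.1 = S ∧ a ∈ p.1.1 then (1 : ℝ) else 0) * v p.2) ^ 2 ≤ w v b := by
    rw [Fintype.sum_prod_type_right]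
    unfold w
    refine Finset.sum_le_sum fun J _ => ?_
    have e : ∑ I : Ix n l,
        ((if symmDiff I.1 J.1 = S ∧ a ∈ I.1 then (1 : ℝ) else 0) * v J) ^ 2 =
        (∑ I : Ix n l, (if symmDiff I.1 J.1 = S ∧ a ∈ I.1 then (1 : ℝ) else 0)) * v J ^ 2 := by
      rw [Finset.sum_mul]
      refine Finset.sum_congr rfl fun I _ => ?_
      split_ifs <;> ring
    rw [e]
    have := mul_le_mul_of_nonneg_right (col_le hSdef J) (sq_nonneg (v J))
    refine this.trans (le_of_eq ?_)
    split_ifs <;> ring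
  have h5 : 0 ≤ w v a := Finset.sum_nonneg fun I _ => by split_ifs <;> positivity
  have h6 := h2.trans (mul_le_mul h3 h4 (Finset.sum_nonneg fun p _ => sq_nonneg _) h5)
  nlinarith [h6]

theorem w_nonneg (v : Ix n l → ℝ) (i : Fin n) : 0 ≤ w v i :=
  Finset.sum_nonneg fun I _ => by split_ifs <;> positivity

theorem w_sum {v : Ix n l → ℝ} (hv : dotProduct v v = 1) : ∑ i, w v i = l := by
  unfold w
  rw [Finset.sum_comm]
  have h : ∀ I : Ix n l, ∑ i : Fin n, (if i ∈ I.1 then v I ^ 2 else 0) = l * v I ^ 2 := by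
    intro I
    rw [Finset.sum_ite_mem, Finset.univ_inter, Finset.sum_const, I.2, nsmul_eq_mul]
  simp_rw [h]
  rw [← Finset.mul_sum]
  have hv' : ∑ I : Ix n l, v I ^ 2 = 1 := by
    rw [← hv]
    unfold dotProduct
    refine Finset.sum_congr rfl fun I _ => ?_
    ring
  rw [hv', mul_one]

theorem q_sum {v : Ix n l → ℝ} (hv : dotProduct v v = 1) :
    ∑ S ∈ prs n, q v S ^ 2 ≤ 4 * Real.exp l := by
  calc ∑ S ∈ prs n, q v S ^ 2 ≤ ∑ S ∈ prs n, 4 * ∏ i ∈ S, w v i :=
        Finset.sum_le_sum fun S hS => q_sq v hS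
    _ ≤ ∑ S ∈ Finset.univ.powerset, 4 * ∏ i ∈ S, w v i := by
        apply Finset.sum_le_sum_of_subset_of_nonneg
        · intro S _
          simp
        · intro S _ _
          exact mul_nonneg (by norm_num) (Finset.prod_nonneg fun i _ => w_nonneg v i)
    _ = 4 * ∏ i : Fin n, (1 + w v i) := by
        rw [Finset.prod_one_add, Finset.mul_sum]
    _ ≤ 4 * Real.exp (∑ i : Fin n, w v i) := by
        apply mul_le_mul_of_nonneg_left _ (by norm_num)
        rw [Real.exp_sum]
        apply Finset.prod_le_prod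
        · intro i _
          have := w_nonneg v i
          positivity
        · intro i _
          have := Real.add_one_le_exp (w v i)
          linarith
    _ = 4 * Real.exp l := by rw [w_sum hv]

end

end Pool.Agent.V11222.Kik
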