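import Mathlib

/-!
The top of a real quadratic form on the unit sphere.
-/

set_option autoImplicit false

open Matrix

namespace Pool.Agent.V11222.Kik

/-- the maximum of the quadratic form of `A` on the unit sphere -/
noncomputable def top {I : Type} [Fintype I] (A : Matrix I I ℝ) : ℝ :=
  sSup {t : ℝ | ∃ v : I → ℝ, dotProduct v v = 1 ∧ t = dotProduct v (A.mulVec v)}

section
variable {I : Type} [Fintype I]

theorem sphere_compact : IsCompact {v : I → ℝ | dotProduct v v = 1} := by
  have h1 : IsCompact (Set.pi Set.univ fun _ : I => Set.Icc (-1 : ℝ) 1) :=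
    isCompact_univ_pi fun _ => isCompact_Icc
  have h2 : IsClosed {v : I → ℝ | dotProduct v v = 1} := by
    apply isClosed_eq
    · unfold dotProduct
      fun_prop
    · exact continuous_const
  apply h1.of_isClosed_subset h2
  intro v hv i _
  have hv' : ∑ j, v j * v j = 1 := hv
  have h3 : v i * v i ≤ 1 := by
    rw [← hv']
    exact Finset.single_le_sum (f := fun j => v j * v j) (fun j _ => mul_self_nonneg _)
      (Finset.mem_univ i)
  constructor <;> nlinarith

theorem set_compact (A : Matrix I I ℝ) :
    IsCompact {t : ℝ | ∃ v : I → ℝ, dotProduct v v = 1 ∧ t = dotProduct v (A.mulVec v)} := by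
  have h := (sphere_compact (I := I)).image (f := fun v => dotProduct v (A.mulVec v)) (by
    unfold dotProduct mulVec dotProduct
    fun_prop)
  convert h using 1
  ext t
  constructor
  · rintro ⟨v, hv, rfl⟩
    exact ⟨v, hv, rfl⟩
  · rintro ⟨v, hv, rfl⟩
    exact ⟨v, hv, rfl⟩

theorem le_top (A : Matrix I I ℝ) {v : I → ℝ} (hv : dotProduct v v = 1) :
    dotProduct v (A.mulVec v) ≤ top A :=
  le_csSup (set_compact A).bddAbove ⟨v, hv, rfl⟩

theorem top_exists [Nonempty I] [DecidableEq I] (A : Matrix I I ℝ) :
    ∃ v : I → ℝ, dotProduct v v = 1 ∧ top A = dotProduct v (A.mulVec v) := by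
  have hne : {t : ℝ | ∃ v : I → ℝ, dotProduct v v = 1 ∧ t = dotProduct v (A.mulVec v)}.Nonempty := by
    obtain ⟨i⟩ := ‹Nonempty I›
    exact ⟨_, Pi.single i 1, by simp, rfl⟩
  exact (set_compact A).sSup_mem hne

end

end Pool.Agent.V11222.Kik
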