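import Pool.Agent.V11222.Kik.Quad
import Pool.Agent.V11222.Kik.Efron
import Pool.Agent.V11222.Kik.CM

/-!
Variance of the top eigenvalue of the Kikuchi matrix of order 2.
-/

set_option autoImplicit false

open Matrix MeasureTheory ProbabilityTheory
open scoped NNReal

namespace Pool.Agent.V11222.Kik

theorem ix_nonempty {n l : ℕ} (h : l ≤ n) : Nonempty (Ix n l) := by
  obtain ⟨K, -, hK⟩ := Finset.exists_subset_card_eq (s := (Finset.univ : Finset (Fin n)))
    (n := l) (by simpa using h)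
  exact ⟨⟨K, hK⟩⟩

section
variable {n l : ℕ}

/-- for every `z` there is a unit vector with `f z = ∑ z S q S` and `f z' ≥ ∑ z' S q S`. -/
theorem f_diff (h : l ≤ n) (z : Finset (Fin n) → ℝ) :
    ∃ c : Finset (Fin n) → ℝ, ∑ S ∈ prs n, c S ^ 2 ≤ 4 * Real.exp l ∧
      f n l z = ∑ S ∈ prs n, z S * c S ∧ ∀ z' : Finset (Fin n) → ℝ,
      f n l z - f n l z' ≤ ∑ S ∈ prs n, (z S - z' S) * c S := by
  have := ix_nonempty h
  obtain ⟨v, hv, hv2⟩ := top_exists (KM n l z)
  refine ⟨q v, q_sum hv, by rw [← quad]; exact hv2, fun z' => ?_⟩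
  have h1 : f n l z = ∑ S ∈ prs n, z S * q v S := by rw [← quad]; exact hv2
  have h2 : ∑ S ∈ prs n, z' S * q v S ≤ f n l z' := by
    rw [← quad]
    exact le_top (KM n l z') hv
  simp_rw [sub_mul]
  rw [Finset.sum_sub_distrib]
  linarith

theorem c_le {c : Finset (Fin n) → ℝ} {C : ℝ} (hc : ∑ S ∈ prs n, c S ^ 2 ≤ C)
    {S : Finset (Fin n)} (hS : S ∈ prs n) : |c S| ≤ 1 + C := by
  have h1 : c S ^ 2 ≤ C :=
    (Finset.single_le_sum (f := fun S => c S ^ 2) (fun S _ => sq_nonneg _) hS).trans hc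
  rw [← sq_abs] at h1
  nlinarith [sq_nonneg (|c S| - 1), abs_nonneg (c S)]

theorem f_le_sum (h : l ≤ n) (z z' : Finset (Fin n) → ℝ) :
    f n l z - f n l z' ≤ (1 + 4 * Real.exp l) * ∑ S : Finset (Fin n), |z S - z' S| := by
  obtain ⟨c, hc, -, hd⟩ := f_diff (l := l) h z
  refine (hd z').trans ?_
  rw [Finset.mul_sum]
  calc ∑ S ∈ prs n, (z S - z' S) * c S ≤ ∑ S ∈ prs n, (1 + 4 * Real.exp l) * |z S - z' S| := by
        refine Finset.sum_le_sum fun S hS => ?_
        calc (z S - z' S) * c S ≤ |(z S - z' S) * c S| := le_abs_self _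
          _ = |z S - z' S| * |c S| := abs_mul _ _
          _ ≤ |z S - z' S| * (1 + 4 * Real.exp l) :=
            mul_le_mul_of_nonneg_left (c_le hc hS) (abs_nonneg _)
          _ = _ := mul_comm _ _
    _ ≤ ∑ S : Finset (Fin n), (1 + 4 * Real.exp l) * |z S - z' S| := by
        apply Finset.sum_le_sum_of_subset_of_nonneg (Finset.subset_univ _)
        intro S _ _
        positivity

theorem f_zero (h : l ≤ n) : f n l 0 = 0 := by
  obtain ⟨c, -, h0, -⟩ := f_diff (l := l) h (0 : Finset (Fin n) → ℝ)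
  rw [h0]
  simp

theorem f_abs (h : l ≤ n) (z : Finset (Fin n) → ℝ) :
    |f n l z| ≤ (1 + 4 * Real.exp l) * ∑ S : Finset (Fin n), |z S| := by
  have h1 := f_le_sum (l := l) h z 0
  have h2 := f_le_sum (l := l) h 0 z
  rw [f_zero h] at h1 h2
  simp only [Pi.zero_apply, sub_zero, zero_sub, abs_neg] at h1 h2
  rw [abs_le]
  constructor <;> linarith

theorem f_cont (h : l ≤ n) : Continuous (f n l) := by
  have : LipschitzWith (Real.toNNReal ((1 + 4 * Real.exp l) *
      (Finset.univ : Finset (Finset (Fin n))).card)) (f n l) := by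
    apply LipschitzWith.of_le_add_mul
    intro z z'
    have h1 := f_le_sum (l := l) h z z'
    have h2 : ∑ S : Finset (Fin n), |z S - z' S| ≤
        (Finset.univ : Finset (Finset (Fin n))).card * dist z z' := by
      rw [← nsmul_eq_mul]
      apply Finset.sum_le_card_nsmul
      intro S _
      rw [← Real.dist_eq]
      exact dist_le_pi_dist z z' S
    rw [Real.coe_toNNReal _ (by positivity)]
    have h3 := mul_le_mul_of_nonneg_left h2 (show 0 ≤ 1 + 4 * Real.exp l by positivity)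
    rw [mul_assoc]
    linarith
  exact this.continuous

theorem f_meas (h : l ≤ n) : Measurable (f n l) := (f_cont h).measurable

/-- the law of the noise -/
noncomputable abbrev P (n : ℕ) : Measure (Finset (Fin n) → ℝ) := PP (Finset (Fin n)) γ

theorem coord_memLp (p : ℝ≥0) (S : Finset (Fin n)) :
    MemLp (fun z : Finset (Fin n) → ℝ => z S) p (P n) := by
  have h1 : MemLp (id : ℝ → ℝ) p γ := memLp_id_gaussianReal p
  exact h1.comp_measurePreserving (measurePreserving_eval (fun _ : Finset (Fin n) => γ) S)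

theorem f_memLp (h : l ≤ n) : MemLp (f n l) 2 (P n) := by
  have h1 : MemLp (fun z : Finset (Fin n) → ℝ => ∑ S : Finset (Fin n), |z S|) 2 (P n) := by
    apply memLp_finsetSum
    intro S _
    have := (coord_memLp (n := n) 2 S).abs
    exact_mod_cast this
  refine h1.of_le_mul (c := 1 + 4 * Real.exp l) (f_meas h).aestronglyMeasurable ?_
  refine Filter.Eventually.of_forall fun z => ?_
  have hs : 0 ≤ ∑ S : Finset (Fin n), |z S| := Finset.sum_nonneg fun S _ => abs_nonneg _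
  rw [Real.norm_eq_abs, Real.norm_eq_abs, abs_of_nonneg hs]
  exact f_abs h z

/-- the constant: sixth moment of a difference -/
noncomputable def K6 : ℝ := ∫ x, (x.1 - x.2) ^ 6 ∂(γ.prod γ)

theorem K6_nonneg : 0 ≤ K6 := integral_nonneg fun x => by positivity

theorem int6 : Integrable (fun x : ℝ × ℝ => (x.1 - x.2) ^ 6) (γ.prod γ) := by
  have h0 : Integrable (fun x : ℝ => x ^ 6) γ := by
    have h1 : MemLp (id : ℝ → ℝ) 6 γ := memLp_id_gaussianReal' 6 (by simp)
    have h2 := h1.integrable_norm_pow (by norm_num)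
    refine h2.congr (Filter.Eventually.of_forall fun x => ?_)
    simp only [id, Real.norm_eq_abs]
    rw [← abs_pow]
    exact abs_of_nonneg (by positivity)
  have h1 : Integrable (fun x : ℝ × ℝ => 32 * (x.1 ^ 6 + x.2 ^ 6)) (γ.prod γ) :=
    ((h0.comp_fst γ).add (h0.comp_snd γ)).const_mul 32
  refine h1.mono' (by fun_prop) (Filter.Eventually.of_forall fun x => ?_)
  rw [Real.norm_eq_abs, abs_of_nonneg (by positivity)]
  have key : ∀ a b : ℝ, (a - b) ^ 2 ≤ 2 * (a ^ 2 + b ^ 2) := fun a b => by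
    nlinarith [sq_nonneg (a + b)]
  have key2 : ∀ u v : ℝ, 0 ≤ u → 0 ≤ v → (u + v) ^ 3 ≤ 4 * (u ^ 3 + v ^ 3) := fun u v hu hv => by
    nlinarith [mul_nonneg (add_nonneg hu hv) (sq_nonneg (u - v))]
  calc (x.1 - x.2) ^ 6 = ((x.1 - x.2) ^ 2) ^ 3 := by ring
    _ ≤ (2 * (x.1 ^ 2 + x.2 ^ 2)) ^ 3 := pow_le_pow_left₀ (sq_nonneg _) (key _ _) 3
    _ = 8 * (x.1 ^ 2 + x.2 ^ 2) ^ 3 := by ring
    _ ≤ 8 * (4 * ((x.1 ^ 2) ^ 3 + (x.2 ^ 2) ^ 3)) :=
      mul_le_mul_of_nonneg_left (key2 _ _ (sq_nonneg _) (sq_nonneg _)) (by norm_num)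
    _ = 32 * (x.1 ^ 6 + x.2 ^ 6) := by ring

theorem sq_le_six {t : ℝ} (ht : 0 < t) (d : ℝ) : d ^ 2 ≤ t + d ^ 6 / t ^ 2 := by
  have h : 0 ≤ d ^ 2 / t := by positivity
  have h1 : d ^ 2 / t ≤ 1 + (d ^ 2 / t) ^ 3 := by
    nlinarith [sq_nonneg (d ^ 2 / t - 1), mul_nonneg h (sq_nonneg (d ^ 2 / t - 1))]
  have h2 := mul_le_mul_of_nonneg_left h1 ht.le
  have h3 : t * (d ^ 2 / t) = d ^ 2 := by field_simp
  have h4 : t * (1 + (d ^ 2 / t) ^ 3) = t + d ^ 6 / t ^ 2 := by field_simp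
  rw [h3, h4] at h2
  exact h2

/-- the bounding function -/
noncomputable def MM (n l : ℕ) (t : ℝ) (θ : Finset (Fin n) → ℝ × ℝ) : ℝ :=
  (4 * Real.exp l) * (t + ∑ S ∈ prs n, ((θ S).1 - (θ S).2) ^ 6 / t ^ 2)

theorem ptw (h : l ≤ n) {t : ℝ} (ht : 0 < t) (θ : Finset (Fin n) → ℝ × ℝ) :
    ∑ S, (max (f n l (sel ∅ θ) - f n l (sel {S} θ)) 0) ^ 2 ≤ MM n l t θ := by
  obtain ⟨c, hc, -, hd⟩ := f_diff (l := l) h (sel ∅ θ)
  have e0 : ∀ S, sel (∅ : Finset (Finset (Fin n))) θ S = (θ S).1 := fun S => by simp [sel]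
  have h1 : ∀ S : Finset (Fin n), (max (f n l (sel ∅ θ) - f n l (sel {S} θ)) 0) ^ 2 ≤
      if S ∈ prs n then ((θ S).1 - (θ S).2) ^ 2 * c S ^ 2 else 0 := by
    intro S
    have h2 := hd (sel {S} θ)
    have h3 : ∑ T ∈ prs n, (sel ∅ θ T - sel {S} θ T) * c T =
        if S ∈ prs n then ((θ S).1 - (θ S).2) * c S else 0 := by
      rw [← Finset.sum_ite_eq (prs n) S (fun S => ((θ S).1 - (θ S).2) * c S)]
      refine Finset.sum_congr rfl fun T _ => ?_
      by_cases hT : S = T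
      · subst hT
        simp [sel]
      · have hT' : T ≠ S := fun h => hT h.symm
        simp [sel, hT, hT']
    rw [h3] at h2
    by_cases hS : S ∈ prs n
    · rw [if_pos hS] at h2 ⊢
      rw [← mul_pow, ← sq_abs (((θ S).1 - (θ S).2) * c S)]
      apply pow_le_pow_left₀ (le_max_right _ _)
      apply max_le (h2.trans (le_abs_self _)) (abs_nonneg _)
    · rw [if_neg hS] at h2 ⊢
      rw [max_eq_right h2]
      norm_num
  calc ∑ S, (max (f n l (sel ∅ θ) - f n l (sel {S} θ)) 0) ^ 2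
      ≤ ∑ S : Finset (Fin n), if S ∈ prs n then ((θ S).1 - (θ S).2) ^ 2 * c S ^ 2 else 0 :=
        Finset.sum_le_sum fun S _ => h1 S
    _ = ∑ S ∈ prs n, ((θ S).1 - (θ S).2) ^ 2 * c S ^ 2 := by
        rw [Finset.sum_ite_mem, Finset.univ_inter]
    _ ≤ ∑ S ∈ prs n, (t + ∑ T ∈ prs n, ((θ T).1 - (θ T).2) ^ 6 / t ^ 2) * c S ^ 2 := by
        refine Finset.sum_le_sum fun S hS => ?_
        apply mul_le_mul_of_nonneg_right _ (sq_nonneg _)
        refine (sq_le_six ht _).trans ?_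
        have := Finset.single_le_sum (f := fun T => ((θ T).1 - (θ T).2) ^ 6 / t ^ 2)
          (fun T _ => by positivity) hS
        linarith
    _ = (t + ∑ T ∈ prs n, ((θ T).1 - (θ T).2) ^ 6 / t ^ 2) * ∑ S ∈ prs n, c S ^ 2 := by
        rw [Finset.mul_sum]
    _ ≤ (t + ∑ T ∈ prs n, ((θ T).1 - (θ T).2) ^ 6 / t ^ 2) * (4 * Real.exp l) := by
        apply mul_le_mul_of_nonneg_left hc
        have : 0 ≤ ∑ T ∈ prs n, ((θ T).1 - (θ T).2) ^ 6 / t ^ 2 :=
          Finset.sum_nonneg fun T _ => by positivity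
        linarith
    _ = _ := by unfold MM; ring

theorem int6S (S : Finset (Fin n)) : Integrable
    (fun θ : Finset (Fin n) → ℝ × ℝ => ((θ S).1 - (θ S).2) ^ 6) (QQ (Finset (Fin n)) γ) :=
  (measurePreserving_eval (fun _ : Finset (Fin n) => γ.prod γ) S).integrable_comp_of_integrable int6

theorem int6S_val (S : Finset (Fin n)) :
    ∫ θ : Finset (Fin n) → ℝ × ℝ, ((θ S).1 - (θ S).2) ^ 6 ∂(QQ (Finset (Fin n)) γ) = K6 :=
  int_mp (measurePreserving_eval (fun _ : Finset (Fin n) => γ.prod γ) S)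
    (g := fun x : ℝ × ℝ => (x.1 - x.2) ^ 6) (by fun_prop)

theorem MM_int {t : ℝ} : Integrable (MM n l t) (QQ (Finset (Fin n)) γ) := by
  unfold MM
  apply Integrable.const_mul
  apply (integrable_const t).add
  apply integrable_finsetSum
  intro S _
  exact (int6S S).div_const _

theorem MM_val {t : ℝ} : ∫ θ, MM n l t θ ∂(QQ (Finset (Fin n)) γ) =
    (4 * Real.exp l) * (t + (prs n).card * (K6 / t ^ 2)) := by
  unfold MM
  rw [integral_const_mul, integral_add (integrable_const t)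
    (integrable_finsetSum _ fun S _ => (int6S S).div_const _),
    integral_finsetSum _ fun S _ => (int6S S).div_const _]
  simp_rw [integral_div, int6S_val]
  simp

theorem prs_card_le : ((prs n).card : ℝ) ≤ n ^ 2 := by
  unfold prs
  rw [Finset.card_powersetCard, Finset.card_univ, Fintype.card_fin]
  exact_mod_cast Nat.choose_le_pow n 2

/-- variance bound -/
theorem var_le (h : l ≤ n) {t : ℝ} (ht : 0 < t) :
    ∫ z, f n l z ^ 2 ∂(P n) - (∫ z, f n l z ∂(P n)) ^ 2 ≤
      (4 * Real.exp l) * (t + n ^ 2 * (K6 / t ^ 2)) := by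
  refine (efron_one (f n l) (f_meas h) (f_memLp h) (MM n l t) MM_int (ptw h ht)).trans ?_
  rw [MM_val]
  apply mul_le_mul_of_nonneg_left _ (by positivity)
  have : 0 ≤ K6 / t ^ 2 := div_nonneg K6_nonneg (by positivity)
  have := mul_le_mul_of_nonneg_right (prs_card_le (n := n)) this
  linarith

end

end Pool.Agent.V11222.Kik
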